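import Pool.Agent.SLTR.StSol

set_option autoImplicit false
set_option linter.unusedSectionVars false

/-!
# No folds: all bounded faces are positively oriented
-/

namespace Pool.Agent.SLTR

open Finset

variable {V D F : Type} [Fintype V] [Fintype D] [Fintype F] [DecidableEq V] [DecidableEq D]
  [DecidableEq F]

namespace Sol

variable {M : PMap V D F} {A : FAA M} (S : Sol A)

open FAA

/-- a fold along the dart `d`: the face of `d` is positively oriented, the face on the other side
negatively -/
structure Fold (d : D) : Prop where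
  pos : 0 < S.ori (M.face d)
  bdd : M.face (M.rev d) ≠ M.out
  neg : S.ori (M.face (M.rev d)) < 0

lemma dl_lin (a b : ℝ) (d : D) : dl M (fun v => a * S.x v + b * S.y v + 0) d =
    a * dl M S.x d + b * dl M S.y d := by
  unfold dl; ring

/-- generic perturbations of a height function -/
lemma exists_gen (a b : ℝ) (hab : ¬ (a = 0 ∧ b = 0)) : ∃ ε : ℝ, 0 < ε ∧
    Gen A S.w (fun v => (-b - ε * a) * S.x v + (a - ε * b) * S.y v + 0) ∧
    (∀ d, 0 < a * dl M S.y d - b * dl M S.x d →
      0 < dl M (fun v => (-b - ε * a) * S.x v + (a - ε * b) * S.y v + 0) d) ∧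
    (∀ d, a * dl M S.y d - b * dl M S.x d < 0 →
      dl M (fun v => (-b - ε * a) * S.x v + (a - ε * b) * S.y v + 0) d < 0) := by
  have hsq : 0 < a ^ 2 + b ^ 2 := by
    rcases eq_or_ne a 0 with h | h
    · have hb : b ≠ 0 := fun hb => hab ⟨h, hb⟩
      positivity
    · positivity
  obtain ⟨ε, hε, hall⟩ := eps_exists
    (fun k : D ⊕ (Fin 3 × Fin 3) => match k with
      | Sum.inl d => a * dl M S.y d - b * dl M S.x d
      | Sum.inr (i, j) => a * (S.y (A.s j) - S.y (A.s i)) - b * (S.x (A.s j) - S.x (A.s i)))
    (fun k => match k with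
      | Sum.inl d => a * dl M S.x d + b * dl M S.y d
      | Sum.inr (i, j) => a * (S.x (A.s j) - S.x (A.s i)) + b * (S.y (A.s j) - S.y (A.s i)))
  have hd1 : ∀ d, dl M (fun v => (-b - ε * a) * S.x v + (a - ε * b) * S.y v + 0) d =
      (a * dl M S.y d - b * dl M S.x d) - ε * (a * dl M S.x d + b * dl M S.y d) := by
    intro d
    rw [S.dl_lin]; ring
  refine ⟨ε, hε, ⟨S.harm _ _ _, ?_, ?_⟩, ?_, ?_⟩
  · intro d hd
    rw [hd1] at hd
    have h := hall (Sum.inl d)
    simp only at h
    rcases lt_trichotomy (a * dl M S.y d - b * dl M S.x d) 0 with h0 | h0 | h0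
    · have := h.2 h0; linarith
    · rw [h0] at hd
      have h1 : a * dl M S.x d + b * dl M S.y d = 0 := by
        have : ε * (a * dl M S.x d + b * dl M S.y d) = 0 := by linarith
        rcases mul_eq_zero.mp this with h2 | h2
        · linarith
        · exact h2
      apply S.dl_ne d
      constructor
      · have : (a ^ 2 + b ^ 2) * dl M S.x d = 0 := by
          have e : (a ^ 2 + b ^ 2) * dl M S.x d = a * (a * dl M S.x d + b * dl M S.y d) -
            b * (a * dl M S.y d - b * dl M S.x d) := by ring
          rw [e, h1, h0]; ring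
        rcases mul_eq_zero.mp this with h2 | h2
        · linarith
        · exact h2
      · have : (a ^ 2 + b ^ 2) * dl M S.y d = 0 := by
          have e : (a ^ 2 + b ^ 2) * dl M S.y d = b * (a * dl M S.x d + b * dl M S.y d) +
            a * (a * dl M S.y d - b * dl M S.x d) := by ring
          rw [e, h1, h0]; ring
        rcases mul_eq_zero.mp this with h2 | h2
        · linarith
        · exact h2
    · have := h.1 h0; linarith
  · intro i j hij heq
    have h := hall (Sum.inr (i, j))
    simp only at h
    -- the suspensions are at different positions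
    have hpos : ¬ (S.x (A.s j) - S.x (A.s i) = 0 ∧ S.y (A.s j) - S.y (A.s i) = 0) := by
      rintro ⟨h1, h2⟩
      obtain ⟨c, hc, hcf, hcs⟩ : ∃ c, ¬ A.flat c ∧ M.face c = M.out ∧ c = A.cor M.out i :=
        ⟨_, A.not_flat_cor _ _, A.face_cor _ _, rfl⟩
      have hcj := A.corner_cases c (A.cor M.out j) hc (A.not_flat_cor _ _)
        ((A.face_cor _ _).trans hcf.symm)
      have hne : A.cor M.out j ≠ c := by
        rw [hcs]; exact fun he => hij (A.cor_inj M.out he).symm
      have hsi : M.src c = A.s i := by rw [hcs]; rfl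
      rcases hcj with h3 | h3 | h3
      · exact hne h3
      · apply S.area_ne c hc
        have hsj : M.src (A.nc c) = A.s j := by rw [← h3]; rfl
        unfold area
        rw [hsi, hsj, h1, h2]; ring
      · apply S.area_ne c hc
        have hsj : M.src (A.nc (A.nc c)) = A.s j := by rw [← h3]; rfl
        unfold area
        rw [hsi, hsj, h1, h2]; ring
    have heq' : (a * (S.y (A.s j) - S.y (A.s i)) - b * (S.x (A.s j) - S.x (A.s i))) -
        ε * (a * (S.x (A.s j) - S.x (A.s i)) + b * (S.y (A.s j) - S.y (A.s i))) = 0 := by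
      linarith
    set dx := S.x (A.s j) - S.x (A.s i)
    set dy := S.y (A.s j) - S.y (A.s i)
    rcases lt_trichotomy (a * dy - b * dx) 0 with h0 | h0 | h0
    · have := h.2 h0; linarith
    · rw [h0] at heq'
      have h1 : a * dx + b * dy = 0 := by
        have : ε * (a * dx + b * dy) = 0 := by linarith
        rcases mul_eq_zero.mp this with h2 | h2
        · linarith
        · exact h2
      apply hpos
      constructor
      · have : (a ^ 2 + b ^ 2) * dx = 0 := by
          have e : (a ^ 2 + b ^ 2) * dx = a * (a * dx + b * dy) - b * (a * dy - b * dx) := by ring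
          rw [e, h1, h0]; ring
        rcases mul_eq_zero.mp this with h2 | h2
        · linarith
        · exact h2
      · have : (a ^ 2 + b ^ 2) * dy = 0 := by
          have e : (a ^ 2 + b ^ 2) * dy = b * (a * dx + b * dy) + a * (a * dy - b * dx) := by ring
          rw [e, h1, h0]; ring
        rcases mul_eq_zero.mp this with h2 | h2
        · linarith
        · exact h2
    · have := h.1 h0; linarith
  · intro d hd
    rw [hd1]
    have h := hall (Sum.inl d)
    exact h.1 hd
  · intro d hd
    rw [hd1]
    have h := hall (Sum.inl d)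
    exact h.2 hd

lemma symm_rot (d : D) : M.nxt.symm (M.rot d) = M.rev d := by
  rw [M.rot_apply, Equiv.symm_apply_apply]

lemma out_corner (d : D) (hd : M.face d = M.out) (hn : ¬ A.flat d) : ∃ i, M.src d = A.s i := by
  obtain ⟨i, hi⟩ := (A.cor_iff M.out d).mp ⟨hd, hn⟩
  exact ⟨i, by rw [hi]; rfl⟩

/-- folds propagate backwards along their line -/
lemma Fold.step (heu : M.Euler) (d : D) (hd : S.Fold d) : ∃ d', S.Fold d' ∧
    M.tgt d' = M.src d ∧ ∃ l : ℝ, 0 < l ∧ dl M S.x d' = l * dl M S.x d ∧
      dl M S.y d' = l * dl M S.y d := by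
  classical
  set a := dl M S.x d with ha
  set b := dl M S.y d with hb
  have hab : ¬ (a = 0 ∧ b = 0) := S.dl_ne d
  have hsq : 0 < a ^ 2 + b ^ 2 := by
    rcases eq_or_ne a 0 with h | h
    · have hb : b ≠ 0 := fun hb => hab ⟨h, hb⟩
      positivity
    · positivity
  obtain ⟨ε, hε, hg, hup, hdn⟩ := S.exists_gen a b hab
  set h : V → ℝ := fun v => (-b - ε * a) * S.x v + (a - ε * b) * S.y v + 0 with hh
  have hdl : ∀ e, dl M h e = (a * dl M S.y e - b * dl M S.x e) -
      ε * (a * dl M S.x e + b * dl M S.y e) := by
    intro e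
    rw [hh, S.dl_lin]; ring
  set p := M.nxt.symm d with hp
  set r := M.rot d with hr
  have hsp : M.src (M.rev p) = M.src d := M.src_symm d
  have hsr : M.src r = M.src d := M.src_rot d
  have hrp : M.rot (M.rev p) = d := M.rot_rev_symm d
  -- `d` is down
  have hdd : dl M h d < 0 := by
    rw [hdl, ← ha, ← hb]
    nlinarith [mul_pos hε hsq]
  -- turns
  have hturn : S.turn d = dl M S.x p * b - dl M S.y p * a := rfl
  have hturnr : S.turn r = - (a * dl M S.y r - b * dl M S.x r) := by
    unfold turn
    rw [hr, symm_rot, ← hr, dl_rev, dl_rev, ← ha, ← hb]; ring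
  -- `rev p` is up
  have hpu : 0 < dl M h (M.rev p) := by
    by_cases hfl : A.flat d
    · obtain ⟨μ, hμ, hμ'⟩ := A.flat_comb S.w S.adm d hfl
      have h1 := hμ' S.x S.hx
      have h2 := hμ' S.y S.hy
      rw [← hp, ← ha] at h1
      rw [← hp, ← hb] at h2
      have h3 := hμ' h hg.harm
      rw [← hp] at h3
      rw [dl_rev]
      have : dl M h p < 0 := by
        by_contra hc
        push Not at hc
        have := mul_nonneg hμ.le hc
        linarith
      linarith
    · obtain ⟨κ, hκ, hκ'⟩ := S.turn_corner d hfl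
      apply hup
      rw [dl_rev, dl_rev]
      have h1 : 0 < S.turn d := by rw [hκ']; exact mul_pos hκ hd.pos
      rw [hturn] at h1
      linarith
  have hru : 0 < dl M h r := by
    by_cases hfl : A.flat r
    · obtain ⟨μ, hμ, hμ'⟩ := A.flat_comb S.w S.adm r hfl
      rw [hμ' h hg.harm, hr, symm_rot, dl_rev]
      have := mul_pos hμ (neg_pos.mpr hdd)
      linarith
    · obtain ⟨κ, hκ, hκ'⟩ := S.turn_corner r hfl
      apply hup
      have h1 : S.turn r < 0 := by
        rw [hκ', hr, M.face_rot]
        exact mul_neg_of_pos_of_neg hκ hd.neg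
      rw [hturnr] at h1
      linarith
  -- two changes at the source
  have htwo : (chg M.rot M.src (up M h) (M.src d)).card = 2 := by
    apply S.two_changes heu h hg
    intro i hi
    constructor
    · by_contra hc
      push Not at hc
      -- all suspensions are at most as high as `s i`, hence everything
      have h1 := (S.harm (b + ε * a) (-(a - ε * b)) (h (A.s i))).nonneg S.adm S.T0 (by
        intro j
        have := hc j
        simp only [hh] at this ⊢
        linarith) (M.tgt (M.rev p))
      have h2 : dl M h (M.rev p) = h (M.tgt (M.rev p)) - h (A.s i) := by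
        unfold dl; rw [hsp, hi]
      simp only [hh] at h1 h2
      rw [hh] at hpu
      linarith
    · by_contra hc
      push Not at hc
      have h1 := (S.harm (-(b + ε * a)) (a - ε * b) (-h (A.s i))).nonneg S.adm S.T0 (by
        intro j
        have := hc j
        simp only [hh] at this ⊢
        linarith) (M.tgt d)
      have h2 : dl M h d = h (M.tgt d) - h (A.s i) := by
        unfold dl; rw [hi]
      simp only [hh] at h1 h2
      rw [hh] at hdd
      linarith
  have honly : ∀ e, M.src e = M.src d → e ≠ d → 0 < dl M h e := by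
    intro e he hne
    have := only_down M.rot M.src (up M h) (M.src d) M.src_rot (M.oneCycle_vert _) htwo
      (M.rev p) d rfl hrp (up_true hpu) (up_false hdd) (up_true hru) e he hne
    exact up_iff.mp this
  have hge : ∀ e, M.src e = M.src d → 0 ≤ a * dl M S.y e - b * dl M S.x e := by
    intro e he
    by_cases hne : e = d
    · rw [hne, ← ha, ← hb]
      have : a * b - b * a = 0 := by ring
      rw [this]
    · by_contra hc
      push Not at hc
      have := hdn e hc
      have := honly e he hne
      linarith
  have hrd : r ≠ d := by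
    intro he; rw [he] at hru; linarith
  have hpd : M.rev p ≠ d := by
    intro he; rw [he] at hpu; linarith
  -- the source is not a suspension
  have hfree : ∀ i, M.src d ≠ A.s i := by
    intro i hi
    obtain ⟨c, c', hcs, hcs', hcf, hcf', j, k, hji, hki, hjk, m, m', hm, hm', hmm⟩ :=
      S.susp_darts i
    have hcd : c ≠ d := by
      intro he
      rw [he] at hcf
      have := hd.pos
      rw [hcf, S.ori_out] at this
      linarith
    have hcd' : c' ≠ d := by
      intro he
      rw [he] at hcf'
      exact hd.bdd hcf'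
    have h1 := honly c (hcs.trans hi.symm) hcd
    have h2 := honly c' (hcs'.trans hi.symm) hcd'
    rw [(hmm h hg.harm).1] at h1
    rw [(hmm h hg.harm).2] at h2
    have h3 : h (A.s i) < h (A.s j) := by
      have := (pos_iff_pos_of_mul_pos h1).mp hm
      linarith
    have h4 : h (A.s i) < h (A.s k) := by
      have := (pos_iff_pos_of_mul_pos h2).mp hm'
      linarith
    -- contradiction with the minimum principle
    have h5 := (S.harm (-(b + ε * a)) (a - ε * b) (-h (A.s i))).nonneg S.adm S.T0 (by
      intro l
      rcases fin3_cases i j k l hji hki hjk with h6 | h6 | h6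
      · rw [h6]; simp only [hh]; linarith
      · rw [h6]; simp only [hh] at h3 ⊢; linarith
      · rw [h6]; simp only [hh] at h4 ⊢; linarith) (M.tgt d)
    have h6 : dl M h d = h (M.tgt d) - h (A.s i) := by
      unfold dl; rw [hi]
    simp only [hh] at h5 h6
    rw [hh] at hdd
    linarith
  -- `d` is a support dart
  have hsupd : A.sup d := by
    by_contra hns
    have hk1 := S.T0.src_κ (M.src d) hfree
    have hk2 := S.T0.sup_κ (M.src d) hfree
    have h1 := hg.harm.eq_of_ge S.adm (M.src d) hfree (by
      intro e he hse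
      have hne : e ≠ d := fun hc => hns (hc ▸ hse)
      have := honly e he hne
      unfold dl at this
      rw [he] at this
      linarith) _ hk1 hk2
    have hne : S.T0.κ (M.src d) ≠ d := fun hc => hns (hc ▸ hk2)
    have := honly _ hk1 hne
    unfold dl at this
    rw [h1, hk1] at this
    linarith
  rcases hsupd.2 with hno | hfl | hfl
  · -- no flat angle at the source
    exfalso
    have hallsup : ∀ e, M.src e = M.src d → A.sup e := by
      intro e he
      exact ⟨fun i => by rw [he]; exact hfree i, Or.inl (fun e' he' => hno e' (he'.trans he))⟩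
    obtain ⟨κ, hκ, hκ'⟩ := S.turn_corner d (hno d rfl)
    have h1 : 0 < S.turn d := by rw [hκ']; exact mul_pos hκ hd.pos
    rw [hturn] at h1
    have h2 := (S.harm (-b) a 0).eq_of_ge S.adm (M.src d) hfree (by
      intro e he _
      have := hge e he
      unfold dl at this
      rw [he] at this
      linarith) (M.rev p) hsp (hallsup _ hsp)
    have h3 : a * dl M S.y (M.rev p) - b * dl M S.x (M.rev p) = 0 := by
      unfold dl
      rw [hsp]
      linarith
    rw [dl_rev, dl_rev] at h3
    linarith
  · -- `d` is flat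
    obtain ⟨μ, hμ, hμ'⟩ := A.flat_comb S.w S.adm d hfl
    have h1 := hμ' S.x S.hx
    have h2 := hμ' S.y S.hy
    rw [← hp, ← ha] at h1
    rw [← hp, ← hb] at h2
    have hnf : ¬ A.flat (M.rev p) := fun hc => hpd (A.uniq _ _ hc hfl hsp)
    refine ⟨p, ⟨?_, ?_, ?_⟩, ?_, μ⁻¹, inv_pos.mpr hμ, ?_, ?_⟩
    · rw [hp, M.face_symm]; exact hd.pos
    · intro hc
      obtain ⟨i, hi⟩ := out_corner (M.rev p) hc hnf
      exact hfree i (hsp.symm.trans hi)
    · -- orientation of the face of `rev p`
      obtain ⟨κ, hκ, hκ'⟩ := S.turn_corner (M.rev p) hnf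
      set q := M.nxt.symm (M.rev p) with hq
      have hsq' : M.src (M.rev q) = M.src d := (M.src_symm (M.rev p)).trans hsp
      have h3 : S.turn (M.rev p) = - μ⁻¹ * (a * dl M S.y (M.rev q) - b * dl M S.x (M.rev q)) := by
        unfold turn
        rw [← hq, dl_rev, dl_rev, dl_rev, dl_rev]
        have e1 : dl M S.x p = μ⁻¹ * a := by rw [h1]; field_simp
        have e2 : dl M S.y p = μ⁻¹ * b := by rw [h2]; field_simp
        rw [e1, e2]; ring
      have h4 := hge (M.rev q) hsq'
      have h5 : S.turn (M.rev p) ≤ 0 := by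
        rw [h3]
        have : 0 < μ⁻¹ := inv_pos.mpr hμ
        nlinarith
      rw [hκ'] at h5
      have h6 := S.ori_ne (M.face (M.rev p))
      rcases lt_or_gt_of_ne h6 with h7 | h7
      · exact h7
      · exfalso
        have := mul_pos hκ h7
        linarith
    · rw [PMap.tgt, hsp]
    · rw [h1]; field_simp
    · rw [h2]; field_simp
  · -- `rot d` is flat
    rw [← hr] at hfl
    obtain ⟨μ, hμ, hμ'⟩ := A.flat_comb S.w S.adm r hfl
    have h1 := hμ' S.x S.hx
    have h2 := hμ' S.y S.hy
    have hsy : M.nxt.symm r = M.rev d := by rw [hr]; exact symm_rot d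
    rw [hsy, dl_rev, ← ha] at h1
    rw [hsy, dl_rev, ← hb] at h2
    have hnf : ¬ A.flat (M.rot r) := by
      intro hc
      have h3 := A.uniq _ _ hc hfl (M.src_rot r)
      have := M.vert_one (M.src d) (fun x => x = r) r d hsr rfl rfl (by
        rintro x _ rfl
        rw [← M.rot_apply]
        exact h3)
      exact hrd this.symm
    have hpos : 0 < S.ori (M.face (M.rot r)) := by
      obtain ⟨κ, hκ, hκ'⟩ := S.turn_corner (M.rot r) hnf
      have hsr' : M.src (M.rot r) = M.src d := (M.src_rot r).trans hsr
      have h3 : S.turn (M.rot r) = μ * (a * dl M S.y (M.rot r) - b * dl M S.x (M.rot r)) := by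
        unfold turn
        rw [symm_rot, dl_rev, dl_rev, h1, h2]; ring
      have h4 := hge _ hsr'
      have h5 : 0 ≤ S.turn (M.rot r) := by
        rw [h3]; exact mul_nonneg hμ.le h4
      rw [hκ'] at h5
      have h6 := S.ori_ne (M.face (M.rot r))
      rcases lt_or_gt_of_ne h6 with h7 | h7
      · exfalso
        have := mul_neg_of_pos_of_neg hκ h7
        linarith
      · exact h7
    refine ⟨M.rev r, ⟨?_, ?_, ?_⟩, ?_, μ, hμ, ?_, ?_⟩
    · rw [← M.face_rot]; exact hpos
    · rw [M.rev_rev, hr, M.face_rot]; exact hd.bdd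
    · rw [M.rev_rev, hr, M.face_rot]; exact hd.neg
    · rw [M.tgt_rev, hsr]
    · rw [dl_rev, h1]; ring
    · rw [dl_rev, h2]; ring

/-- there are no folds -/
theorem no_fold (heu : M.Euler) (d : D) : ¬ S.Fold d := by
  classical
  intro hd
  set a := dl M S.x d with ha
  set b := dl M S.y d with hb
  have hab : ¬ (a = 0 ∧ b = 0) := S.dl_ne d
  have hsq : 0 < a ^ 2 + b ^ 2 := by
    rcases eq_or_ne a 0 with h | h
    · have hb : b ≠ 0 := fun hb => hab ⟨h, hb⟩
      positivity
    · positivity
  let P : D → Prop := fun e => S.Fold e ∧ ∃ l : ℝ, 0 < l ∧ dl M S.x e = l * a ∧ dl M S.y e = l * b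
  obtain ⟨m, hm, hmin⟩ := exists_min_image (univ.filter P)
    (fun e => a * S.x (M.src e) + b * S.y (M.src e)) ⟨d, by
      simp only [mem_filter, mem_univ, true_and]
      exact ⟨hd, 1, one_pos, by rw [one_mul], by rw [one_mul]⟩⟩
  simp only [mem_filter, mem_univ, true_and] at hm hmin
  obtain ⟨hmF, l, hl, hl1, hl2⟩ := hm
  obtain ⟨e, heF, het, k, hk, hk1, hk2⟩ := Fold.step S heu m hmF
  have hPe : P e := ⟨heF, k * l, mul_pos hk hl, by rw [hk1, hl1]; ring, by rw [hk2, hl2]; ring⟩
  have h1 := hmin e hPe
  have h2 : dl M S.x e = S.x (M.src m) - S.x (M.src e) := by unfold dl; rw [het]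
  have h3 : dl M S.y e = S.y (M.src m) - S.y (M.src e) := by unfold dl; rw [het]
  have h4 : a * dl M S.x e + b * dl M S.y e = k * l * (a ^ 2 + b ^ 2) := by
    rw [hk1, hk2, hl1, hl2]; ring
  have h5 : 0 < k * l * (a ^ 2 + b ^ 2) := mul_pos (mul_pos hk hl) hsq
  rw [h2, h3] at h4
  nlinarith

/-- faces next to the outer face are positively oriented -/
lemma pos_of_outer (d : D) (hd : M.face (M.rev d) = M.out) : 0 < S.ori (M.face d) := by
  have hdb : M.face d ≠ M.out := by
    have := A.rev_out (M.rev d) hd
    rwa [M.rev_rev] at this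
  set r := M.rot d with hr
  have hrf : M.face r = M.out := by rw [hr, M.face_rot, hd]
  have hsr : M.src r = M.src d := M.src_rot d
  have hnf : ¬ A.flat d := by
    intro hfl
    by_cases h : A.flat r
    · have := A.uniq _ _ h hfl hsr
      rw [this] at hrf
      exact hdb hrf
    · obtain ⟨i, hi⟩ := out_corner r hrf h
      exact A.free_of_flat d hfl i (hsr.symm.trans hi)
  obtain ⟨κ, hκ, hκ'⟩ := S.turn_corner d hnf
  -- the side of the outer face
  obtain ⟨c, hc, hcf, hcs⟩ := A.exists_side (M.rev d)
  obtain ⟨m, a, hm, ha, -, hma⟩ := A.side_frac S.w S.adm c _ hcs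
  have hx := hma S.x S.hx
  have hy := hma S.y S.hy
  have hcout : M.face c = M.out := hcf.trans hd
  have hori := S.area_eq_ori c hc
  rw [hcout, S.ori_out] at hori
  have hdx : dl M S.x d = - (m * (S.x (M.src (A.nc c)) - S.x (M.src c))) := by
    rw [← hx.1, dl_rev]; ring
  have hdy : dl M S.y d = - (m * (S.y (M.src (A.nc c)) - S.y (M.src c))) := by
    rw [← hy.1, dl_rev]; ring
  have hux : S.x (M.src d) = S.x (M.src (M.rev d)) - dl M S.x d := by
    have : dl M S.x d = S.x (M.src (M.rev d)) - S.x (M.src d) := rfl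
    rw [this]; ring
  have huy : S.y (M.src d) = S.y (M.src (M.rev d)) - dl M S.y d := by
    have : dl M S.y d = S.y (M.src (M.rev d)) - S.y (M.src d) := rfl
    rw [this]; ring
  have key : ∀ v, 0 ≤ dl M S.x d * (S.y v - S.y (M.src d)) - dl M S.y d * (S.x v - S.x (M.src d)) := by
    intro v
    have h1 := (S.harm (-dl M S.y d) (dl M S.x d) (dl M S.y d * S.x (M.src d) -
      dl M S.x d * S.y (M.src d))).nonneg S.adm S.T0 (by
        intro i
        have hi : M.face (A.cor M.out i) = M.face c := (A.face_cor _ _).trans hcout.symm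
        have hval : ∀ j : D, M.src (A.cor M.out i) = M.src j → A.s i = M.src j := fun j hj => hj
        rcases A.corner_cases c _ hc (A.not_flat_cor _ _) hi with h2 | h2 | h2
        · rw [hval c (by rw [h2]), hux, huy, hdx, hdy, hx.2, hy.2]
          apply le_of_eq
          ring
        · rw [hval (A.nc c) (by rw [h2]), hux, huy, hdx, hdy, hx.2, hy.2]
          apply le_of_eq
          ring
        · rw [hval (A.nc (A.nc c)) (by rw [h2]), hux, huy, hdx, hdy, hx.2, hy.2]
          unfold area at hori
          nlinarith) v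
    linarith
  have h3 : 0 ≤ S.turn d := by
    have h4 := key (M.src (M.nxt.symm d))
    have h5 : M.src d = M.tgt (M.nxt.symm d) := by rw [PMap.tgt, M.src_symm]
    have h6 : S.turn d = dl M S.x d * (S.y (M.src (M.nxt.symm d)) - S.y (M.src d)) -
        dl M S.y d * (S.x (M.src (M.nxt.symm d)) - S.x (M.src d)) := by
      have e1 : dl M S.x (M.nxt.symm d) = S.x (M.src d) - S.x (M.src (M.nxt.symm d)) := by
        rw [h5]; rfl
      have e2 : dl M S.y (M.nxt.symm d) = S.y (M.src d) - S.y (M.src (M.nxt.symm d)) := by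
        rw [h5]; rfl
      unfold turn
      rw [e1, e2]; ring
    rw [h6]; exact h4
  rw [hκ'] at h3
  rcases lt_or_gt_of_ne (S.ori_ne (M.face d)) with h7 | h7
  · exfalso
    have := mul_neg_of_pos_of_neg hκ h7
    linarith
  · exact h7

/-- **All bounded faces are positively oriented.** -/
theorem ori_pos (heu : M.Euler) (f : F) (hf : f ≠ M.out) : 0 < S.ori f := by
  by_contra hc
  push Not at hc
  have hneg : S.ori f < 0 := lt_of_le_of_ne hc (S.ori_ne f)
  obtain ⟨d, hd⟩ := M.face_surj f
  obtain ⟨e, he⟩ := M.face_surj M.out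
  have := M.conn (fun x => M.face x ≠ M.out ∧ S.ori (M.face x) < 0)
    ⟨d, by rw [hd]; exact ⟨hf, hneg⟩⟩ (by
      rintro x ⟨h1, h2⟩
      have h3 : M.face (M.rev x) ≠ M.out := by
        intro h
        have := S.pos_of_outer x h
        linarith
      refine ⟨h3, ?_⟩
      rcases lt_or_gt_of_ne (S.ori_ne (M.face (M.rev x))) with h4 | h4
      · exact h4
      · exfalso
        apply S.no_fold heu (M.rev x)
        exact ⟨h4, by rw [M.rev_rev]; exact h1, by rw [M.rev_rev]; exact h2⟩) (by
      rintro x ⟨h1, h2⟩
      rw [M.face_nxt]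
      exact ⟨h1, h2⟩) e
  exact this.1 he

end Sol

end Pool.Agent.SLTR
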