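import Pool.Agent.SLTR.StMenger
import Pool.Agent.SLTR.StFold

set_option autoImplicit false
set_option linter.unusedSectionVars false

/-!
# The cut condition implies the existence of certificates
-/

namespace Pool.Agent.SLTR

open Finset

variable {V D F : Type} [Fintype V] [Fintype D] [Fintype F] [DecidableEq V] [DecidableEq D]
  [DecidableEq F]

/-- the cut condition: every nonempty set of vertices without suspension has a support dart leaving
it, and a set containing all vertices of a bounded face has at least three vertices that are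
suspensions or have a support outside the set -/
structure CutCond {M : PMap V D F} (A : FAA M) : Prop where
  one : ∀ X : Finset V, X.Nonempty → (∀ v ∈ X, ∀ i, v ≠ A.s i) →
    ∃ d, M.src d ∈ X ∧ A.sup d ∧ M.tgt d ∉ X
  three : ∀ f, f ≠ M.out → ∀ X : Finset V, (∀ d, M.face d = f → M.src d ∈ X) → ∀ a b,
    ¬ ∀ v ∈ X, v ≠ a → v ≠ b → (∀ i, v ≠ A.s i) ∧ ∀ d, M.src d = v → A.sup d → M.tgt d ∈ X

/-- the supports of a flat vertex -/
lemma FAA.sup_flat {M : PMap V D F} (A : FAA M) (d e : D) (hd : A.flat d)
    (he : M.src e = M.src d) (hs : A.sup e) : e = d ∨ e = M.rev (M.nxt.symm d) := by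
  rcases hs.2 with h | h | h
  · exact absurd hd (h d he.symm)
  · exact Or.inl (A.uniq _ _ h hd he)
  · right
    have h1 := A.uniq _ _ h hd ((M.src_rot e).trans he)
    apply M.rot.injective
    rw [h1, M.rot_rev_symm]

theorem cert_of_cut {M : PMap V D F} (A : FAA M) (hc : CutCond A) : Cert A := by
  classical
  intro f hf
  have : Nonempty D := ⟨A.cor f 0⟩
  have hx : Function.Injective (fun i => M.src (A.cor f i)) := by
    intro i j h
    apply A.cor_inj f
    apply M.simple
    · rw [A.face_cor, A.face_cor]
    · exact h
  apply forest_of_cut A.s_inj (fun i => M.src (A.cor f i)) hx hc.one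
  intro X hX a b hcl
  apply hc.three f hf (X ∪ (univ.filter fun d => M.face d = f).image M.src)
    (by
      intro d hd
      apply mem_union_right
      exact mem_image_of_mem _ (by simp [hd])) a b
  intro v hv hva hvb
  by_cases hvX : v ∈ X
  · obtain ⟨h1, h2⟩ := hcl v hvX hva hvb
    exact ⟨h1, fun d hd hs => mem_union_left _ (h2 d hd hs)⟩
  · rw [mem_union] at hv
    rcases hv with hv | hv
    · exact absurd hv hvX
    obtain ⟨d, hd, rfl⟩ := mem_image.mp hv
    simp only [mem_filter, mem_univ, true_and] at hd
    have hfl : A.flat d := by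
      by_contra hn
      obtain ⟨i, hi⟩ := (A.cor_iff f d).mp ⟨hd, hn⟩
      apply hvX
      rw [hi]
      exact hX i
    refine ⟨A.free_of_flat d hfl, ?_⟩
    intro e he hs
    apply mem_union_right
    rcases A.sup_flat d e hfl he hs with rfl | rfl
    · rw [mem_image]
      exact ⟨M.nxt e, by simp [M.face_nxt, hd], M.src_nxt e⟩
    · rw [mem_image]
      exact ⟨M.nxt.symm d, by simp [M.face_symm, hd], by rw [M.tgt_rev]⟩

end Pool.Agent.SLTR
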