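import Mathlib

set_option autoImplicit false

/-!
# Combinatorial plane maps and counting of sign changes
-/

namespace Pool.Agent.SLTR

open Finset

/-! ## Sign changes of a two-valued function along a permutation -/

section Changes

variable {D L : Type} [Fintype D] [DecidableEq D] [DecidableEq L]

/-- the elements of the class `l` at which `up` changes along the permutation `π` -/
def chg (π : Equiv.Perm D) (lab : D → L) (up : D → Bool) (l : L) : Finset D :=
  univ.filter fun d => lab d = l ∧ up d ≠ up (π d)

/-- the elements of the class `l` at which `up` changes from `true` to `false` -/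
def chgTF (π : Equiv.Perm D) (lab : D → L) (up : D → Bool) (l : L) : Finset D :=
  univ.filter fun d => lab d = l ∧ up d = true ∧ up (π d) = false

/-- the elements of the class `l` at which `up` changes from `false` to `true` -/
def chgFT (π : Equiv.Perm D) (lab : D → L) (up : D → Bool) (l : L) : Finset D :=
  univ.filter fun d => lab d = l ∧ up d = false ∧ up (π d) = true

lemma card_chg (π : Equiv.Perm D) (lab : D → L) (up : D → Bool) (l : L) :
    (chg π lab up l).card = (chgTF π lab up l).card + (chgFT π lab up l).card := by
  rw [← card_union_of_disjoint]
  · congr 1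
    ext d
    simp only [chg, chgTF, chgFT, mem_filter, mem_univ, true_and, mem_union]
    cases up d <;> cases up (π d) <;> simp
  · rw [disjoint_left]
    intro d h1 h2
    simp only [chgTF, chgFT, mem_filter, mem_univ, true_and] at h1 h2
    rw [h1.2.1] at h2
    exact absurd h2.2.1 (by decide)

lemma card_TF_eq_FT (π : Equiv.Perm D) (lab : D → L) (up : D → Bool) (l : L)
    (hlab : ∀ d, lab (π d) = lab d) :
    (chgTF π lab up l).card = (chgFT π lab up l).card := by
  have h1 : (univ.filter fun d => lab d = l ∧ up d = true).card =
      (univ.filter fun d => lab d = l ∧ up (π d) = true).card := by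
    symm
    apply card_bij (fun d _ => π d)
    · intro d hd
      simp only [mem_filter, mem_univ, true_and] at hd ⊢
      rw [hlab]; exact hd
    · intro a _ b _ h
      exact π.injective h
    · intro b hb
      refine ⟨π.symm b, ?_, by simp⟩
      simp only [mem_filter, mem_univ, true_and] at hb ⊢
      have := hlab (π.symm b)
      rw [Equiv.apply_symm_apply] at this
      rw [← this, Equiv.apply_symm_apply]
      exact hb
  have h2 : (univ.filter fun d => lab d = l ∧ up d = true).card =
      (univ.filter fun d => lab d = l ∧ up d = true ∧ up (π d) = true).card +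
        (chgTF π lab up l).card := by
    rw [← card_union_of_disjoint]
    · congr 1
      ext d
      simp only [chgTF, mem_filter, mem_univ, true_and, mem_union]
      cases up d <;> cases up (π d) <;> simp
    · rw [disjoint_left]
      intro d h1 h2
      simp only [chgTF, mem_filter, mem_univ, true_and] at h1 h2
      rw [h1.2.2] at h2
      exact absurd h2.2.2 (by decide)
  have h3 : (univ.filter fun d => lab d = l ∧ up (π d) = true).card =
      (univ.filter fun d => lab d = l ∧ up d = true ∧ up (π d) = true).card +
        (chgFT π lab up l).card := by
    rw [← card_union_of_disjoint]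
    · congr 1
      ext d
      simp only [chgFT, mem_filter, mem_univ, true_and, mem_union]
      cases up d <;> cases up (π d) <;> simp
    · rw [disjoint_left]
      intro d h1 h2
      simp only [chgFT, mem_filter, mem_univ, true_and] at h1 h2
      rw [h1.2.1] at h2
      exact absurd h2.2.1 (by decide)
  omega

/-- induction principle: the class of `l` is a single cycle of `π` -/
def OneCycle (π : Equiv.Perm D) (lab : D → L) (l : L) : Prop :=
  ∀ (N : D → Prop) (d e : D), lab d = l → lab e = l → N d →
    (∀ x, lab x = l → N x → N (π x)) → N e

lemma two_le_card_chg (π : Equiv.Perm D) (lab : D → L) (up : D → Bool) (l : L)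
    (hlab : ∀ d, lab (π d) = lab d) (hone : OneCycle π lab l) (a b : D) (ha : lab a = l)
    (hb : lab b = l) (hua : up a = true) (hub : up b = false) :
    2 ≤ (chg π lab up l).card := by
  have h1 : 0 < (chgTF π lab up l).card := by
    rw [card_pos]
    by_contra hne
    rw [not_nonempty_iff_eq_empty] at hne
    have := hone (fun x => up x = true) a b ha hb hua (by
      intro x hx hux
      by_contra hc
      have : x ∈ chgTF π lab up l := by
        simp only [chgTF, mem_filter, mem_univ, true_and]
        exact ⟨hx, hux, by simpa using hc⟩
      rw [hne] at this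
      exact absurd this (notMem_empty x))
    rw [hub] at this
    exact absurd this (by decide)
  rw [card_chg, ← card_TF_eq_FT π lab up l hlab]
  omega

lemma only_down (π : Equiv.Perm D) (lab : D → L) (up : D → Bool) (l : L)
    (hlab : ∀ d, lab (π d) = lab d) (hone : OneCycle π lab l)
    (h2 : (chg π lab up l).card = 2) (c d : D) (hd : lab d = l) (hc : π c = d)
    (huc : up c = true) (hud : up d = false) (hu : up (π d) = true) (e : D) (he : lab e = l)
    (hne : e ≠ d) : up e = true := by
  have hTF : (chgTF π lab up l).card = 1 := by
    rw [card_chg, ← card_TF_eq_FT π lab up l hlab] at h2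
    omega
  have hcl : lab c = l := by rw [← hlab, hc, hd]
  have hcm : c ∈ chgTF π lab up l := by
    simp only [chgTF, mem_filter, mem_univ, true_and]
    exact ⟨hcl, huc, by rw [hc]; exact hud⟩
  have hpd : lab (π d) = l := by rw [hlab, hd]
  have := hone (fun x => up x = true ∨ x = d) (π d) e hpd he (Or.inl hu) (by
    intro x hx hux
    rcases hux with hux | hux
    · by_cases hpx : up (π x) = true
      · exact Or.inl hpx
      · right
        have hxm : x ∈ chgTF π lab up l := by
          simp only [chgTF, mem_filter, mem_univ, true_and]
          exact ⟨hx, hux, by simpa using hpx⟩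
        rw [card_eq_one] at hTF
        obtain ⟨y, hy⟩ := hTF
        rw [hy, mem_singleton] at hxm hcm
        rw [hxm, ← hcm, hc]
    · left; rw [hux]; exact hu)
  rcases this with h | h
  · exact h
  · exact absurd h hne

end Changes

/-! ## Plane maps -/

/-- A (finite, connected) map on a surface, given by its darts (directed edges): `src d` is the
start vertex, `rev d` the reversed dart, `nxt d` the next dart on the boundary walk of the face on
the left of `d`; `face d` is that face, and `out` is the outer face.  All boundary walks of faces
visit each vertex at most once. -/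
structure PMap (V D F : Type) where
  src : D → V
  rev : D → D
  nxt : Equiv.Perm D
  face : D → F
  out : F
  rev_rev : ∀ d, rev (rev d) = d
  src_nxt : ∀ d, src (nxt d) = src (rev d)
  face_nxt : ∀ d, face (nxt d) = face d
  src_surj : ∀ v, ∃ d, src d = v
  face_surj : ∀ f, ∃ d, face d = f
  /-- the darts of a face form a single cycle of `nxt` -/
  face_one : ∀ (f : F) (N : D → Prop) (d e : D), face d = f → face e = f → N d →
    (∀ x, face x = f → N x → N (nxt x)) → N e
  /-- the darts starting at a vertex form a single cycle of `d ↦ nxt (rev d)` -/
  vert_one : ∀ (v : V) (N : D → Prop) (d e : D), src d = v → src e = v → N d →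
    (∀ x, src x = v → N x → N (nxt (rev x))) → N e
  simple : ∀ d e, face d = face e → src d = src e → d = e
  conn : ∀ N : D → Prop, (∃ d, N d) → (∀ d, N d → N (rev d)) → (∀ d, N d → N (nxt d)) →
    ∀ d, N d

namespace PMap

variable {V D F : Type} (M : PMap V D F)

/-- end vertex of a dart -/
def tgt (d : D) : V := M.src (M.rev d)

/-- reversal as a permutation -/
def revP : Equiv.Perm D := ⟨M.rev, M.rev, M.rev_rev, M.rev_rev⟩

/-- rotation around the start vertex -/
def rot : Equiv.Perm D := M.revP.trans M.nxt

lemma rot_apply (d : D) : M.rot d = M.nxt (M.rev d) := rfl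

lemma src_rot (d : D) : M.src (M.rot d) = M.src d := by
  rw [rot_apply, M.src_nxt, M.rev_rev]

lemma src_symm (d : D) : M.src (M.rev (M.nxt.symm d)) = M.src d := by
  rw [← M.src_nxt, Equiv.apply_symm_apply]

lemma face_symm (d : D) : M.face (M.nxt.symm d) = M.face d := by
  have := M.face_nxt (M.nxt.symm d)
  rw [Equiv.apply_symm_apply] at this
  exact this.symm

lemma rot_rev_symm (d : D) : M.rot (M.rev (M.nxt.symm d)) = d := by
  rw [rot_apply, M.rev_rev, Equiv.apply_symm_apply]

lemma tgt_rev (d : D) : M.tgt (M.rev d) = M.src d := by
  rw [tgt, M.rev_rev]

lemma face_rot (d : D) : M.face (M.rot d) = M.face (M.rev d) := by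
  rw [rot_apply, M.face_nxt]

variable [Fintype V] [Fintype D] [Fintype F] [DecidableEq V] [DecidableEq D] [DecidableEq F]

omit [Fintype V] [Fintype D] [Fintype F] [DecidableEq V] [DecidableEq D] [DecidableEq F] in
lemma oneCycle_face (f : F) : OneCycle M.nxt M.face f := by
  intro N d e hd he hN h
  exact M.face_one f N d e hd he hN h

omit [Fintype V] [Fintype D] [Fintype F] [DecidableEq V] [DecidableEq D] [DecidableEq F] in
lemma oneCycle_vert (v : V) : OneCycle M.rot M.src v := by
  intro N d e hd he hN h
  exact M.vert_one v N d e hd he hN h

/-- Euler's formula `|V| - |E| + |F| = 2`, doubled -/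
def Euler (_M : PMap V D F) : Prop :=
  2 * Fintype.card V + 2 * Fintype.card F = Fintype.card D + 4

/-- The index theorem: if every face and every vertex other than `top` and `bot` sees both values,
then every vertex other than `top`, `bot` has exactly two changes. -/
theorem index (heu : M.Euler) (up : D → Bool) (hrev : ∀ d, up (M.rev d) = !(up d))
    (hface : ∀ f, ∃ a b, M.face a = f ∧ M.face b = f ∧ up a = true ∧ up b = false)
    (top bot : V) (htb : top ≠ bot)
    (hvert : ∀ v, v ≠ top → v ≠ bot → ∃ a b, M.src a = v ∧ M.src b = v ∧ up a = true ∧
      up b = false) (v : V) (hv1 : v ≠ top) (hv2 : v ≠ bot) :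
    (chg M.rot M.src up v).card = 2 := by
  -- total number of changes at faces
  have hB : 2 * Fintype.card F ≤ (univ.filter fun d => up d ≠ up (M.nxt d)).card := by
    rw [card_eq_sum_card_fiberwise (f := M.face) (t := (univ : Finset F))
      (by intro x _; exact mem_univ _)]
    calc 2 * Fintype.card F = ∑ _f : F, 2 := by
          rw [sum_const, card_univ, smul_eq_mul, mul_comm]
      _ ≤ _ := by
          apply sum_le_sum
          intro f _
          obtain ⟨a, b, ha, hb, hua, hub⟩ := hface f
          have := two_le_card_chg M.nxt M.face up f M.face_nxt (M.oneCycle_face f) a b ha hb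
            hua hub
          refine this.trans (card_le_card ?_)
          intro d hd
          simp only [chg, mem_filter, mem_univ, true_and] at hd ⊢
          exact ⟨hd.2, hd.1⟩
  have hAB : (univ.filter fun d => up d ≠ up (M.rot d)).card +
      (univ.filter fun d => up d ≠ up (M.nxt d)).card = Fintype.card D := by
    have h1 : (univ.filter fun d => up d ≠ up (M.rot d)).card =
        (univ.filter fun d => ¬ (up d ≠ up (M.nxt d))).card := by
      apply card_bij (fun d _ => M.rev d)
      · intro d hd
        simp only [mem_filter, mem_univ, true_and, ne_eq, not_not] at hd ⊢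
        rw [rot_apply] at hd
        rw [hrev]
        revert hd
        cases up d <;> cases up (M.nxt (M.rev d)) <;> simp
      · intro a _ b _ h
        have := congrArg M.rev h
        rwa [M.rev_rev, M.rev_rev] at this
      · intro b hb
        refine ⟨M.rev b, ?_, M.rev_rev b⟩
        simp only [mem_filter, mem_univ, true_and, ne_eq, not_not] at hb ⊢
        rw [rot_apply, M.rev_rev, hrev, hb]
        cases up (M.nxt b) <;> simp
    rw [h1, add_comm, card_filter_add_card_filter_not, card_univ]
  have hA : (univ.filter fun d => up d ≠ up (M.rot d)).card =
      ∑ u : V, (chg M.rot M.src up u).card := by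
    rw [card_eq_sum_card_fiberwise (f := M.src) (t := (univ : Finset V))
      (by intro x _; exact mem_univ _)]
    apply sum_congr rfl
    intro u _
    congr 1
    ext d
    simp only [chg, mem_filter, mem_univ, true_and]
    tauto
  have hge : ∀ u, u ≠ top → u ≠ bot → 2 ≤ (chg M.rot M.src up u).card := by
    intro u h1 h2
    obtain ⟨a, b, ha, hb, hua, hub⟩ := hvert u h1 h2
    exact two_le_card_chg M.rot M.src up u M.src_rot (M.oneCycle_vert u) a b ha hb hua hub
  have hle : ∑ u : V, (chg M.rot M.src up u).card + 4 ≤ 2 * Fintype.card V := by
    have := heu
    unfold Euler at this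
    omega
  by_contra hne
  have h3 : 3 ≤ (chg M.rot M.src up v).card := by
    have := hge v hv1 hv2
    omega
  -- lower bound of the sum
  have hcardV : Fintype.card V = ((univ.erase top).erase bot).card + 2 := by
    rw [card_erase_of_mem (by simp [htb.symm]), card_erase_of_mem (mem_univ _), card_univ]
    have h2 : 2 ≤ Fintype.card V := by
      have : ({top, bot} : Finset V).card ≤ Fintype.card V := card_le_univ _
      rwa [card_pair htb] at this
    omega
  have hs : ∑ u ∈ (univ.erase top).erase bot, (chg M.rot M.src up u).card ≤
      ∑ u : V, (chg M.rot M.src up u).card := by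
    apply sum_le_sum_of_subset
    intro x _
    exact mem_univ _
  have hlow : 2 * ((univ.erase top).erase bot).card + 1 ≤
      ∑ u ∈ (univ.erase top).erase bot, (chg M.rot M.src up u).card := by
    have hvm : v ∈ (univ.erase top).erase bot := by simp [hv1, hv2]
    rw [← add_sum_erase _ _ hvm]
    have h4 : 2 * (((univ.erase top).erase bot).erase v).card ≤
        ∑ u ∈ ((univ.erase top).erase bot).erase v, (chg M.rot M.src up u).card := by
      rw [mul_comm, ← smul_eq_mul, ← sum_const]
      apply sum_le_sum
      intro u hu
      simp only [mem_erase, mem_univ, and_true] at hu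
      exact hge u hu.2.2 hu.2.1
    have h5 : ((univ.erase top).erase bot).card = (((univ.erase top).erase bot).erase v).card + 1 := by
      rw [card_erase_of_mem hvm]
      have : 0 < ((univ.erase top).erase bot).card := card_pos.mpr ⟨v, hvm⟩
      omega
    omega
  omega

end PMap

end Pool.Agent.SLTR
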