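import Pool.Agent.SLTR.StSide

set_option autoImplicit false
set_option linter.unusedSectionVars false

/-!
# The geometry of the solution: sides and corners
-/

namespace Pool.Agent.SLTR

open Finset

variable {V D F : Type} [Fintype V] [Fintype D] [Fintype F] [DecidableEq V] [DecidableEq D]
  [DecidableEq F]

namespace FAA

variable {M : PMap V D F} (A : FAA M)

/-- harmonic functions for the weights `w` -/
def H (w : D → ℝ) (h : V → ℝ) : Prop := Harm M.src M.tgt A.s w h

/-- difference of `h` along a dart -/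
def dl (M : PMap V D F) (h : V → ℝ) (d : D) : ℝ := h (M.tgt d) - h (M.src d)

lemma dl_rev (h : V → ℝ) (d : D) : dl M h (M.rev d) = - dl M h d := by
  unfold dl
  rw [M.tgt_rev]
  unfold PMap.tgt
  ring

lemma free_of_flat (d : D) (hd : A.flat d) (i : Fin 3) : M.src d ≠ A.s i :=
  fun h => A.susp i d h hd

lemma free_of_sup (d : D) (hd : A.sup d) (i : Fin 3) : M.src d ≠ A.s i := hd.1 i

/-- at a flat angle, the next dart is a positive multiple of the previous one -/
lemma flat_comb (w : D → ℝ) (hw : Adm M.src A.s A.sup w) (e : D) (he : A.flat e) :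
    ∃ μ : ℝ, 0 < μ ∧ ∀ h, A.H w h → dl M h e = μ * dl M h (M.nxt.symm e) := by
  have hfree : ∀ i, M.src e ≠ A.s i := A.free_of_flat e he
  set e' := M.rev (M.nxt.symm e) with he'
  have hsrc' : M.src e' = M.src e := M.src_symm e
  have hsup : A.sup e := ⟨hfree, Or.inr (Or.inl he)⟩
  have hsup' : A.sup e' := by
    refine ⟨fun i => by rw [hsrc']; exact hfree i, Or.inr (Or.inr ?_)⟩
    rw [he', M.rot_rev_symm]; exact he
  have hother : ∀ d, M.src d = M.src e → d ≠ e → d ≠ e' → w d = 0 := by
    intro d hd h1 h2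
    apply hw.zero
    rintro ⟨-, h3 | h3 | h3⟩
    · exact h3 e hd.symm he
    · exact h1 (A.uniq d e h3 he hd)
    · have h4 := A.uniq _ _ h3 he ((M.src_rot d).trans hd)
      apply h2
      apply M.rot.injective
      rw [h4, he', M.rot_rev_symm]
  have hdl : ∀ h : V → ℝ, h (M.tgt e') - h (M.src e) = - dl M h (M.nxt.symm e) := by
    intro h
    rw [← hsrc', he']
    exact dl_rev h _
  by_cases hee : e' = e
  · refine ⟨1, one_pos, ?_⟩
    intro h hh
    have h1 := hh.centred hw (M.src e) hfree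
    rw [sum_eq_single e] at h1
    · rw [if_pos rfl] at h1
      have h2 := hw.pos e hsup
      have h3 : dl M h e = 0 := by
        rcases mul_eq_zero.mp h1 with h4 | h4
        · linarith
        · exact h4
      have h5 := hdl h
      rw [hee] at h5
      have h6 : dl M h e = h (M.tgt e) - h (M.src e) := rfl
      linarith
    · intro d _ hd
      split_ifs with h4
      · rw [hother d h4 hd (by rw [hee]; exact hd), zero_mul]
      · rfl
    · intro hc; exact absurd (mem_univ _) hc
  · have hp := hw.pos e hsup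
    have hp' := hw.pos e' hsup'
    refine ⟨w e' / w e, div_pos hp' hp, ?_⟩
    intro h hh
    have h1 := hh.centred hw (M.src e) hfree
    have h2 : (∑ d, if M.src d = M.src e then w d * (h (M.tgt d) - h (M.src e)) else 0) =
        w e * (h (M.tgt e) - h (M.src e)) + w e' * (h (M.tgt e') - h (M.src e)) := by
      rw [← sum_subset (subset_univ ({e, e'} : Finset D))]
      · rw [sum_pair (Ne.symm hee), if_pos rfl, if_pos hsrc']
      · intro d _ hd
        simp only [mem_insert, mem_singleton, not_or] at hd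
        split_ifs with h4
        · rw [hother d h4 hd.1 hd.2, zero_mul]
        · rfl
    rw [h2, hdl h] at h1
    have h3 : dl M h e = h (M.tgt e) - h (M.src e) := rfl
    rw [h3]
    field_simp
    linarith

/-- positions along a side -/
lemma side_pow (w : D → ℝ) (hw : Adm M.src A.s A.sup w) (c : D) (j : ℕ) (hj : j < A.len c) :
    ∃ m a : ℝ, 0 < m ∧ 0 ≤ a ∧ (0 < j → 0 < a) ∧ ∀ h, A.H w h →
      dl M h ((M.nxt ^ j) c) = m * dl M h c ∧
      h (M.src ((M.nxt ^ j) c)) = h (M.src c) + a * dl M h c := by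
  induction j with
  | zero =>
    refine ⟨1, 0, one_pos, le_refl 0, fun h => absurd h (lt_irrefl 0), ?_⟩
    intro h _
    simp
  | succ j ih =>
    obtain ⟨m, a, hm, ha, -, hma⟩ := ih (by omega)
    have hfl := A.flat_of_lt c (j + 1) (Nat.succ_pos _) hj
    obtain ⟨μ, hμ, hμ'⟩ := A.flat_comb w hw _ hfl
    have hsymm : M.nxt.symm ((M.nxt ^ (j + 1)) c) = (M.nxt ^ j) c := by
      rw [pow_succ']
      exact Equiv.symm_apply_apply _ _
    refine ⟨μ * m, a + m, mul_pos hμ hm, by linarith, fun _ => by linarith, ?_⟩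
    intro h hh
    obtain ⟨h1, h2⟩ := hma h hh
    refine ⟨?_, ?_⟩
    · rw [hμ' h hh, hsymm, h1]; ring
    · have h3 : M.src ((M.nxt ^ (j + 1)) c) = M.tgt ((M.nxt ^ j) c) := by
        rw [pow_succ']
        exact M.src_nxt _
      rw [h3]
      have h4 : h (M.tgt ((M.nxt ^ j) c)) = h (M.src ((M.nxt ^ j) c)) +
          dl M h ((M.nxt ^ j) c) := by unfold dl; ring
      rw [h4, h1, h2]; ring

/-- the end of a side -/
lemma side_end (w : D → ℝ) (hw : Adm M.src A.s A.sup w) (c : D) :
    ∃ K : ℝ, 0 < K ∧ ∀ h, A.H w h → h (M.src (A.nc c)) = h (M.src c) + K * dl M h c := by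
  obtain ⟨j, hj⟩ : ∃ j, A.len c = j + 1 := ⟨A.len c - 1, by have := A.len_pos c; omega⟩
  obtain ⟨m, a, hm, ha, -, hma⟩ := A.side_pow w hw c j (by omega)
  refine ⟨a + m, by linarith, ?_⟩
  intro h hh
  obtain ⟨h1, h2⟩ := hma h hh
  have h3 : M.src (A.nc c) = M.tgt ((M.nxt ^ j) c) := by
    rw [nc, hj, pow_succ']
    exact M.src_nxt _
  have h4 : h (M.tgt ((M.nxt ^ j) c)) = h (M.src ((M.nxt ^ j) c)) +
      dl M h ((M.nxt ^ j) c) := by unfold dl; ring
  rw [h3, h4, h1, h2]; ring

/-- darts on a side, as fractions of the side -/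
lemma side_frac (w : D → ℝ) (hw : Adm M.src A.s A.sup w) (c x : D) (hx : A.Side c x) :
    ∃ m a : ℝ, 0 < m ∧ 0 ≤ a ∧ (x ≠ c → 0 < a) ∧ ∀ h, A.H w h →
      dl M h x = m * (h (M.src (A.nc c)) - h (M.src c)) ∧
      h (M.src x) = h (M.src c) + a * (h (M.src (A.nc c)) - h (M.src c)) := by
  obtain ⟨j, hj, rfl⟩ := hx
  obtain ⟨m, a, hm, ha, ha', hma⟩ := A.side_pow w hw c j hj
  obtain ⟨K, hK, hK'⟩ := A.side_end w hw c
  refine ⟨m / K, a / K, div_pos hm hK, div_nonneg ha hK.le, ?_, ?_⟩
  · intro hne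
    apply div_pos _ hK
    apply ha'
    apply Nat.pos_of_ne_zero
    intro h0
    apply hne
    rw [h0]; simp
  · intro h hh
    obtain ⟨h1, h2⟩ := hma h hh
    have h3 := hK' h hh
    constructor
    · rw [h1, h3]; field_simp; ring
    · rw [h2, h3]; field_simp; ring

end FAA

end Pool.Agent.SLTR
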