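import Pool.Agent.SLTR.StBasic

set_option autoImplicit false
set_option linter.unusedSectionVars false

/-!
# Linear systems on a network with three suspensions: generic weights
-/

namespace Pool.Agent.SLTR

open Finset Matrix

section Net

variable {V D : Type} [Fintype V] [Fintype D] [DecidableEq V] [DecidableEq D]

/-- the matrix of the system: `h v = ∑ w d * h (tgt d)` at free vertices, `h (c i)` at the
suspension `s i` -/
def Bmat {R : Type} [CommRing R] (src tgt : D → V) (s : Fin 3 → V) (w : D → R) (c : Fin 3 → V) :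
    Matrix V V R :=
  Matrix.of fun v u => (∑ i, if v = s i then (if u = c i then (1 : R) else 0) else 0) +
    if (∀ i, v ≠ s i) then ((if u = v then (1 : R) else 0) -
      ∑ d, if src d = v ∧ tgt d = u then w d else 0) else 0

lemma Bmat_map {R S : Type} [CommRing R] [CommRing S] (src tgt : D → V) (s : Fin 3 → V)
    (w : D → R) (c : Fin 3 → V) (φ : R →+* S) :
    (Bmat src tgt s w c).map φ = Bmat src tgt s (fun d => φ (w d)) c := by
  ext v u
  simp only [Bmat, Matrix.map_apply, Matrix.of_apply, map_add, map_sum]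
  congr 1
  · apply sum_congr rfl
    intro i _
    split_ifs <;> simp
  · split_ifs with h1 h2
    · simp only [map_sub, map_one, map_sum]
      congr 1
      apply sum_congr rfl
      intro d _
      split_ifs <;> simp
    · simp only [map_sub, map_zero, map_sum]
      congr 1
      apply sum_congr rfl
      intro d _
      split_ifs <;> simp
    · simp

variable {R : Type} [CommRing R]

lemma Bmat_mulVec_susp (src tgt : D → V) (s : Fin 3 → V) (hs : Function.Injective s) (w : D → R)
    (c : Fin 3 → V) (h : V → R) (i : Fin 3) :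
    (Bmat src tgt s w c *ᵥ h) (s i) = h (c i) := by
  have hno : ¬ (∀ j, s i ≠ s j) := fun hc => hc i rfl
  simp only [Matrix.mulVec, dotProduct, Bmat, Matrix.of_apply, if_neg hno, add_zero]
  have : ∀ u, (∑ j, if s i = s j then (if u = c j then (1 : R) else 0) else 0) =
      if u = c i then 1 else 0 := by
    intro u
    rw [sum_eq_single i]
    · simp
    · intro j _ hj
      rw [if_neg (fun he => hj (hs he).symm)]
    · intro hc; exact absurd (mem_univ i) hc
  simp only [this, ite_mul, one_mul, zero_mul, sum_ite_eq', mem_univ, if_true]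

lemma Bmat_mulVec_free (src tgt : D → V) (s : Fin 3 → V) (w : D → R)
    (c : Fin 3 → V) (h : V → R) (v : V) (hv : ∀ i, v ≠ s i) :
    (Bmat src tgt s w c *ᵥ h) v = h v - ∑ d, if src d = v then w d * h (tgt d) else 0 := by
  simp only [Matrix.mulVec, dotProduct, Bmat, Matrix.of_apply, if_pos hv]
  have h0 : ∀ u, (∑ j, if v = s j then (if u = c j then (1 : R) else 0) else 0) = 0 := by
    intro u
    apply sum_eq_zero
    intro j _
    rw [if_neg (hv j)]
  simp only [h0, zero_add, sub_mul, ite_mul, one_mul, zero_mul, sum_sub_distrib, sum_ite_eq',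
    mem_univ, if_true]
  congr 1
  simp only [sum_mul]
  rw [sum_comm]
  apply sum_congr rfl
  intro d _
  by_cases hd : src d = v
  · simp only [hd, true_and, if_true, ite_mul, zero_mul]
    rw [sum_ite_eq univ (tgt d) (fun u => w d * h u)]
    simp
  · simp [hd]

/-- harmonic functions -/
def Harm (src tgt : D → V) (s : Fin 3 → V) (w : D → ℝ) (h : V → ℝ) : Prop :=
  ∀ v, (∀ i, v ≠ s i) → h v = ∑ d, if src d = v then w d * h (tgt d) else 0

/-- a spanning forest rooted at the suspensions, given by a choice of darts `κ`, with root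
function `ρ` and a decreasing rank `r` -/
structure Forest (src tgt : D → V) (s : Fin 3 → V) (sup : D → Prop) where
  κ : V → D
  ρ : V → Fin 3
  r : V → ℕ
  src_κ : ∀ v, (∀ i, v ≠ s i) → src (κ v) = v
  sup_κ : ∀ v, (∀ i, v ≠ s i) → sup (κ v)
  ρ_κ : ∀ v, (∀ i, v ≠ s i) → ρ (tgt (κ v)) = ρ v
  r_κ : ∀ v, (∀ i, v ≠ s i) → r (tgt (κ v)) < r v
  ρ_s : ∀ i, ρ (s i) = i

variable {src tgt : D → V} {s : Fin 3 → V} {sup : D → Prop}

lemma Forest.eq_root (T : Forest src tgt s sup) (h : V → ℝ)
    (hh : ∀ v, (∀ i, v ≠ s i) → h v = h (tgt (T.κ v))) (v : V) : h v = h (s (T.ρ v)) := by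
  have : ∀ n v, T.r v = n → h v = h (s (T.ρ v)) := by
    intro n
    induction n using Nat.strong_induction_on with
    | _ n ih =>
      intro v hv
      by_cases hf : ∀ i, v ≠ s i
      · rw [hh v hf, ← T.ρ_κ v hf]
        exact ih _ (by rw [← hv]; exact T.r_κ v hf) _ rfl
      · push Not at hf
        obtain ⟨i, hi⟩ := hf
        rw [hi, T.ρ_s]
  exact this _ v rfl

/-- deterministic weights following a forest -/
noncomputable def Forest.wt (T : Forest src tgt s sup) (d : D) : ℝ :=
  if d = T.κ (src d) ∧ (∀ i, src d ≠ s i) then 1 else 0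

lemma Forest.sum_wt (T : Forest src tgt s sup) (g : V → ℝ) (v : V) (hv : ∀ i, v ≠ s i) :
    (∑ d, if src d = v then T.wt d * g (tgt d) else 0) = g (tgt (T.κ v)) := by
  rw [sum_eq_single (T.κ v)]
  · rw [if_pos (T.src_κ v hv), Forest.wt, T.src_κ v hv, if_pos ⟨rfl, hv⟩, one_mul]
  · intro d _ hd
    by_cases h : src d = v
    · rw [if_pos h, Forest.wt, h, if_neg (fun hc => hd hc.1), zero_mul]
    · rw [if_neg h]
  · intro h; exact absurd (mem_univ _) h

lemma Forest.det_ne (hs : Function.Injective s) (T : Forest src tgt s sup) (c : Fin 3 → V)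
    (hc : Function.Injective fun i => T.ρ (c i)) :
    (Bmat src tgt s T.wt c).det ≠ 0 := by
  intro h0
  obtain ⟨h, hne, hz⟩ := Matrix.exists_mulVec_eq_zero_iff.mpr h0
  apply hne
  have h1 : ∀ i, h (c i) = 0 := by
    intro i
    have := Bmat_mulVec_susp src tgt s hs T.wt c h i
    rw [hz] at this
    exact this.symm
  have h2 : ∀ v, (∀ i, v ≠ s i) → h v = h (tgt (T.κ v)) := by
    intro v hv
    have := Bmat_mulVec_free src tgt s T.wt c h v hv
    rw [hz, T.sum_wt h v hv] at this
    have h3 : (0 : V → ℝ) v = 0 := rfl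
    rw [h3] at this
    linarith
  have h4 := T.eq_root h h2
  have hsurj : Function.Surjective fun i => T.ρ (c i) := Finite.surjective_of_injective hc
  funext v
  obtain ⟨i, hi⟩ := hsurj (T.ρ v)
  simp only at hi
  rw [h4 v, ← hi, ← h4 (c i), h1 i]
  rfl

/-- admissible weights -/
structure Adm (src : D → V) (s : Fin 3 → V) (sup : D → Prop) (w : D → ℝ) : Prop where
  pos : ∀ d, sup d → 0 < w d
  zero : ∀ d, ¬ sup d → w d = 0
  sum : ∀ v, (∀ i, v ≠ s i) → (∑ d, if src d = v then w d else 0) = 1

lemma exists_adm (T : Forest src tgt s sup) : ∃ w, Adm src s sup w := by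
  classical
  let N : V → ℕ := fun v => (univ.filter fun d => src d = v ∧ sup d).card
  have hN : ∀ d, sup d → 0 < N (src d) := by
    intro d hd
    apply card_pos.mpr
    exact ⟨d, by simp [hd]⟩
  refine ⟨fun d => if sup d then 1 / (N (src d) : ℝ) else 0, ?_, ?_, ?_⟩
  · intro d hd
    simp only [if_pos hd]
    have : (0 : ℝ) < N (src d) := by exact_mod_cast hN d hd
    positivity
  · intro d hd
    simp only [if_neg hd]
  · intro v hv
    have h1 : (∑ d, if src d = v then (if sup d then 1 / (N (src d) : ℝ) else 0) else 0) =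
        ∑ d ∈ univ.filter (fun d => src d = v ∧ sup d), 1 / (N v : ℝ) := by
      rw [sum_filter]
      apply sum_congr rfl
      intro d _
      by_cases h : src d = v
      · by_cases h' : sup d
        · simp [h, h']
        · simp [h']
      · simp [h]
    rw [h1, sum_const, nsmul_eq_mul]
    have h2 : 0 < N v := by
      have := hN (T.κ v) (T.sup_κ v hv)
      rwa [T.src_κ v hv] at this
    have h3 : (0 : ℝ) < N v := by exact_mod_cast h2
    change (N v : ℝ) * (1 / (N v : ℝ)) = 1
    field_simp

lemma Adm.mix {w : D → ℝ} (hw : Adm src s sup w) (T : Forest src tgt s sup) (t : ℝ)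
    (ht : t ∈ Set.Ioo (0 : ℝ) 1) : Adm src s sup (fun d => w d + t * (T.wt d - w d)) := by
  obtain ⟨h0, h1⟩ := ht
  refine ⟨?_, ?_, ?_⟩
  · intro d hd
    have h2 := hw.pos d hd
    have h3 : 0 ≤ T.wt d := by
      unfold Forest.wt
      split_ifs <;> norm_num
    have h4 : 0 < (1 - t) * w d := mul_pos (by linarith) h2
    have h5 : 0 ≤ t * T.wt d := mul_nonneg h0.le h3
    linarith
  · intro d hd
    have h2 := hw.zero d hd
    have h3 : T.wt d = 0 := by
      unfold Forest.wt
      rw [if_neg]
      rintro ⟨h4, h5⟩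
      apply hd
      rw [h4]
      exact T.sup_κ _ h5
    simp only [h2, h3]
    ring
  · intro v hv
    have h2 := hw.sum v hv
    have h3 := T.sum_wt (fun _ => 1) v hv
    simp only [mul_one] at h3
    have h4 : (∑ d, if src d = v then w d + t * (T.wt d - w d) else 0) =
        (∑ d, if src d = v then w d else 0) + t * ((∑ d, if src d = v then T.wt d else 0) -
          (∑ d, if src d = v then w d else 0)) := by
      rw [← sum_sub_distrib, mul_sum, ← sum_add_distrib]
      apply sum_congr rfl
      intro d _
      split_ifs <;> ring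
    rw [h4, h2, h3]
    ring

/-- the determinant along a segment of weights is a polynomial -/
lemma det_poly (w w' : D → ℝ) (c : Fin 3 → V) : ∃ P : Polynomial ℝ, ∀ t : ℝ,
    P.eval t = (Bmat src tgt s (fun d => w d + t * (w' d - w d)) c).det := by
  refine ⟨(Bmat src tgt s (fun d => Polynomial.C (w d) + Polynomial.X *
    Polynomial.C (w' d - w d)) c).det, ?_⟩
  intro t
  rw [← Polynomial.coe_evalRingHom, RingHom.map_det, RingHom.mapMatrix_apply, Bmat_map]
  congr 2
  funext d
  simp

/-- **Generic weights.** -/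
theorem exists_generic (hs : Function.Injective s) {ι : Type} [Fintype ι] [DecidableEq ι]
    (C : ι → Fin 3 → V) (T : ι → Forest src tgt s sup) (T0 : Forest src tgt s sup)
    (hT : ∀ i, Function.Injective fun j => (T i).ρ (C i j)) :
    ∃ w, Adm src s sup w ∧ ∀ i, (Bmat src tgt s w (C i)).det ≠ 0 := by
  have key : ∀ S : Finset ι, ∃ w, Adm src s sup w ∧
      ∀ i ∈ S, (Bmat src tgt s w (C i)).det ≠ 0 := by
    intro S
    induction S using Finset.induction_on with
    | empty =>
      obtain ⟨w, hw⟩ := exists_adm T0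
      exact ⟨w, hw, by simp⟩
    | insert a S ha ih =>
      obtain ⟨w, hw, hdet⟩ := ih
      choose P hP using fun i => det_poly (src := src) (tgt := tgt) (s := s) w (T a).wt (C i)
      have h1 : ∀ i ∈ insert a S, P i ≠ 0 := by
        intro i hi hz
        rw [mem_insert] at hi
        rcases hi with rfl | hi
        · have := hP i 1
          rw [hz, Polynomial.eval_zero] at this
          have h2 : (fun d => w d + 1 * ((T i).wt d - w d)) = (T i).wt := by
            funext d; ring
          rw [h2] at this
          exact (T i).det_ne hs (C i) (hT i) this.symm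
        · have := hP i 0
          rw [hz, Polynomial.eval_zero] at this
          have h2 : (fun d => w d + 0 * ((T a).wt d - w d)) = w := by
            funext d; ring
          rw [h2] at this
          exact hdet i hi this.symm
      have h2 : (∏ i ∈ insert a S, P i) ≠ 0 := prod_ne_zero_iff.mpr h1
      have h3 : ∃ t ∈ Set.Ioo (0 : ℝ) 1, ¬ (∏ i ∈ insert a S, P i).IsRoot t := by
        by_contra hc
        push Not at hc
        exact h2 (Polynomial.eq_zero_of_infinite_isRoot _
          ((Set.Ioo_infinite (by norm_num : (0 : ℝ) < 1)).mono (fun t ht => hc t ht)))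
      obtain ⟨t, ht, hroot⟩ := h3
      refine ⟨_, hw.mix (T a) t ht, ?_⟩
      intro i hi hz
      apply hroot
      rw [Polynomial.IsRoot, Polynomial.eval_prod]
      apply prod_eq_zero hi
      rw [hP i t, hz]
  obtain ⟨w, hw, h⟩ := key univ
  exact ⟨w, hw, fun i => h i (mem_univ i)⟩

/-- harmonic functions with prescribed values at the suspensions -/
lemma exists_harm (hs : Function.Injective s) (w : D → ℝ)
    (hdet : (Bmat src tgt s w s).det ≠ 0) (b : Fin 3 → ℝ) :
    ∃ h : V → ℝ, Harm src tgt s w h ∧ ∀ i, h (s i) = b i := by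
  classical
  let bb : V → ℝ := fun v => ∑ i, if v = s i then b i else 0
  have hbb : ∀ i, bb (s i) = b i := by
    intro i
    change (∑ j, if s i = s j then b j else 0) = b i
    rw [sum_eq_single i]
    · simp
    · intro j _ hj
      rw [if_neg (fun he => hj (hs he).symm)]
    · intro hc; exact absurd (mem_univ i) hc
  have hbb' : ∀ v, (∀ i, v ≠ s i) → bb v = 0 := by
    intro v hv
    exact sum_eq_zero (fun i _ => if_neg (hv i))
  refine ⟨(Bmat src tgt s w s)⁻¹ *ᵥ bb, ?_, ?_⟩
  · intro v hv
    have h1 : (Bmat src tgt s w s *ᵥ ((Bmat src tgt s w s)⁻¹ *ᵥ bb)) v = bb v := by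
      rw [Matrix.mulVec_mulVec, Matrix.mul_nonsing_inv _ (Ne.isUnit hdet), Matrix.one_mulVec]
    rw [Bmat_mulVec_free src tgt s w s _ v hv, hbb' v hv] at h1
    linarith
  · intro i
    have h1 : (Bmat src tgt s w s *ᵥ ((Bmat src tgt s w s)⁻¹ *ᵥ bb)) (s i) = bb (s i) := by
      rw [Matrix.mulVec_mulVec, Matrix.mul_nonsing_inv _ (Ne.isUnit hdet), Matrix.one_mulVec]
    rw [Bmat_mulVec_susp src tgt s hs w s, hbb] at h1
    exact h1

/-- harmonic functions vanishing at a nonsingular triple vanish -/
lemma harm_eq_zero (hs : Function.Injective s) (w : D → ℝ) (c : Fin 3 → V)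
    (hdet : (Bmat src tgt s w c).det ≠ 0) (h : V → ℝ) (hh : Harm src tgt s w h)
    (hc : ∀ i, h (c i) = 0) : h = 0 := by
  by_contra hne
  apply hdet
  apply Matrix.exists_mulVec_eq_zero_iff.mp
  refine ⟨h, hne, ?_⟩
  funext v
  by_cases hv : ∀ i, v ≠ s i
  · rw [Bmat_mulVec_free src tgt s w c h v hv, ← hh v hv]
    simp
  · push Not at hv
    obtain ⟨i, hi⟩ := hv
    rw [hi, Bmat_mulVec_susp src tgt s hs w c, hc i]
    rfl

lemma Harm.lin {w : D → ℝ} (hw : Adm src s sup w) {g h : V → ℝ} (hg : Harm src tgt s w g)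
    (hh : Harm src tgt s w h) (a b c : ℝ) :
    Harm src tgt s w (fun v => a * g v + b * h v + c) := by
  intro v hv
  have h1 := hg v hv
  have h2 := hh v hv
  have h3 := hw.sum v hv
  have h4 : (∑ d, if src d = v then w d * (a * g (tgt d) + b * h (tgt d) + c) else 0) =
      a * (∑ d, if src d = v then w d * g (tgt d) else 0) +
      b * (∑ d, if src d = v then w d * h (tgt d) else 0) +
      c * (∑ d, if src d = v then w d else 0) := by
    rw [mul_sum, mul_sum, mul_sum, ← sum_add_distrib, ← sum_add_distrib]
    apply sum_congr rfl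
    intro d _
    split_ifs <;> ring
  simp only
  rw [h4, ← h1, ← h2, h3]
  ring

/-- the mean value property, centred -/
lemma Harm.centred {w : D → ℝ} (hw : Adm src s sup w) {h : V → ℝ} (hh : Harm src tgt s w h)
    (v : V) (hv : ∀ i, v ≠ s i) :
    (∑ d, if src d = v then w d * (h (tgt d) - h v) else 0) = 0 := by
  have h2 := hh v hv
  have h3 := hw.sum v hv
  have h4 : (∑ d, if src d = v then w d * (h (tgt d) - h v) else 0) =
      (∑ d, if src d = v then w d * h (tgt d) else 0) -
      h v * (∑ d, if src d = v then w d else 0) := by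
    rw [mul_sum, ← sum_sub_distrib]
    apply sum_congr rfl
    intro d _
    split_ifs <;> ring
  rw [h4, ← h2, h3]
  ring

/-- if no support neighbour is lower then all support neighbours are at the same height -/
lemma Harm.eq_of_ge {w : D → ℝ} (hw : Adm src s sup w) {h : V → ℝ} (hh : Harm src tgt s w h)
    (v : V) (hv : ∀ i, v ≠ s i) (hge : ∀ d, src d = v → sup d → h v ≤ h (tgt d)) (d : D)
    (hd : src d = v) (hs : sup d) : h (tgt d) = h v := by
  have h0 := hh.centred hw v hv
  have hnn : ∀ e ∈ (univ : Finset D), 0 ≤ (if src e = v then w e * (h (tgt e) - h v) else 0) := by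
    intro e _
    split_ifs with he
    · by_cases hse : sup e
      · exact mul_nonneg (hw.pos e hse).le (by linarith [hge e he hse])
      · rw [hw.zero e hse, zero_mul]
    · exact le_refl 0
  have h1 := (sum_eq_zero_iff_of_nonneg hnn).mp h0 d (mem_univ d)
  rw [if_pos hd] at h1
  have h2 := hw.pos d hs
  rcases mul_eq_zero.mp h1 with h3 | h3
  · linarith
  · linarith

lemma Harm.eq_of_le {w : D → ℝ} (hw : Adm src s sup w) {h : V → ℝ} (hh : Harm src tgt s w h)
    (v : V) (hv : ∀ i, v ≠ s i) (hle : ∀ d, src d = v → sup d → h (tgt d) ≤ h v) (d : D)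
    (hd : src d = v) (hs : sup d) : h (tgt d) = h v := by
  have h1 := hh.lin hw hh (-1) 0 0
  have := h1.eq_of_ge hw v hv (by
    intro e he hse
    have := hle e he hse
    linarith) d hd hs
  linarith

/-- minimum principle -/
lemma Harm.nonneg {w : D → ℝ} (hw : Adm src s sup w) (T : Forest src tgt s sup) {h : V → ℝ}
    (hh : Harm src tgt s w h) (hpos : ∀ i, 0 ≤ h (s i)) (v : V) : 0 ≤ h v := by
  by_contra hneg
  push Not at hneg
  obtain ⟨m, _, hm⟩ := exists_min_image (univ : Finset V) h ⟨v, mem_univ v⟩
  have hm' : ∀ u, h m ≤ h u := fun u => hm u (mem_univ u)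
  have hmneg : h m < 0 := lt_of_le_of_lt (hm' v) hneg
  have key : ∀ n u, T.r u = n → h u = h m → False := by
    intro n
    induction n using Nat.strong_induction_on with
    | _ n ih =>
      intro u hu hum
      by_cases hf : ∀ i, u ≠ s i
      · have := hh.eq_of_ge hw u hf (by
          intro d _ _
          rw [hum]
          exact hm' _) (T.κ u) (T.src_κ u hf) (T.sup_κ u hf)
        exact ih _ (by rw [← hu]; exact T.r_κ u hf) (tgt (T.κ u)) rfl (this.trans hum)
      · push Not at hf
        obtain ⟨i, hi⟩ := hf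
        rw [hi] at hum
        have := hpos i
        linarith
  exact key _ m rfl rfl

end Net

end Pool.Agent.SLTR
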