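import Pool.Agent.SLTR.StLin

set_option autoImplicit false
set_option linter.unusedSectionVars false

/-!
# Forests separating three vertices, from a cut condition (Menger's theorem for three paths,
obtained from Hall's theorem)
-/

namespace Pool.Agent.SLTR

open Finset

variable {V D : Type} [Fintype V] [Fintype D] [DecidableEq V] [DecidableEq D]
  {src tgt : D → V} {s : Fin 3 → V} {sup : D → Prop}

/-- from a choice of darts with decreasing rank to a forest -/
lemma exists_forest (hs : Function.Injective s) (κ : V → D) (r : V → ℕ)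
    (h1 : ∀ v, (∀ i, v ≠ s i) → src (κ v) = v) (h2 : ∀ v, (∀ i, v ≠ s i) → sup (κ v))
    (h3 : ∀ v, (∀ i, v ≠ s i) → r (tgt (κ v)) < r v) :
    ∃ T : Forest src tgt s sup, T.κ = κ := by
  classical
  let next : V → V := fun v => if (∀ i, v ≠ s i) then tgt (κ v) else v
  have hnf : ∀ v, (∀ i, v ≠ s i) → next v = tgt (κ v) := fun v hv => if_pos hv
  have hns : ∀ i, next (s i) = s i := fun i => if_neg (fun h => h i rfl)
  have hend : ∀ n v, r v ≤ n → ∃ i, next^[n] v = s i := by
    intro n
    induction n with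
    | zero =>
      intro v hv
      by_contra hc
      push Not at hc
      have := h3 v hc
      omega
    | succ n ih =>
      intro v hv
      rw [Function.iterate_succ_apply]
      by_cases hf : ∀ i, v ≠ s i
      · apply ih
        rw [hnf v hf]
        have := h3 v hf
        omega
      · push Not at hf
        obtain ⟨i, rfl⟩ := hf
        rw [hns i]
        clear hv
        refine ⟨i, ?_⟩
        exact Function.iterate_fixed (hns i) n
  let N := univ.sup r
  have hN : ∀ v, r v ≤ N := fun v => le_sup (mem_univ v)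
  choose ρ hρ using fun v => hend N v (hN v)
  have hρs : ∀ i, ρ (s i) = i := by
    intro i
    apply hs
    rw [← hρ (s i)]
    exact Function.iterate_fixed (hns i) N
  refine ⟨⟨κ, ρ, r, h1, h2, ?_, h3, hρs⟩, rfl⟩
  intro v hv
  apply hs
  rw [← hρ, ← hnf v hv, ← Function.iterate_succ_apply, Function.iterate_succ_apply', hρ v, hns]

/-- layers of the distance to the suspensions -/
def lay (src tgt : D → V) (s : Fin 3 → V) (sup : D → Prop) : ℕ → Set V
  | 0 => {v | ∃ i, v = s i}
  | k + 1 => lay src tgt s sup k ∪ {v | ∃ d, src d = v ∧ sup d ∧ tgt d ∈ lay src tgt s sup k}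

/-- **Menger for three paths**, in the form of a separating forest. -/
theorem forest_of_cut [Nonempty D] (hs : Function.Injective s) (x : Fin 3 → V) (hx : Function.Injective x)
    (h1 : ∀ X : Finset V, X.Nonempty → (∀ v ∈ X, ∀ i, v ≠ s i) →
      ∃ d, src d ∈ X ∧ sup d ∧ tgt d ∉ X)
    (h3 : ∀ X : Finset V, (∀ i, x i ∈ X) → ∀ a b, ¬ ∀ v ∈ X, v ≠ a → v ≠ b →
      (∀ i, v ≠ s i) ∧ ∀ d, src d = v → sup d → tgt d ∈ X) :
    ∃ T : Forest src tgt s sup, Function.Injective fun i => T.ρ (x i) := by
  classical
  -- Hall's theorem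
  let ι := {v : V // ∀ i, v ≠ s i}
  let t : ι → Finset V := fun v => univ.filter fun u =>
    (u = v.1 ∨ ∃ d, src d = v.1 ∧ sup d ∧ tgt d = u) ∧ ∀ i, u ≠ x i
  have hall : ∀ S : Finset ι, S.card ≤ (S.biUnion t).card := by
    intro S
    by_contra hc
    push Not at hc
    let S' : Finset V := S.image (fun v => v.1)
    have hS' : S'.card = S.card := card_image_of_injective _ Subtype.val_injective
    let A : Finset V := univ.image x
    have hA : A.card = 3 := by
      rw [card_image_of_injective _ hx, card_univ, Fintype.card_fin]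
    let X : Finset V := S.biUnion t ∪ A
    have hX : X.card ≤ (S.biUnion t).card + 3 := by
      have := card_union_le (S.biUnion t) A
      rwa [hA] at this
    have hsub : S' ⊆ X := by
      intro v hv
      obtain ⟨u, hu, rfl⟩ := mem_image.mp hv
      by_cases hvx : ∀ i, u.1 ≠ x i
      · apply mem_union_left
        rw [mem_biUnion]
        exact ⟨u, hu, mem_filter.mpr ⟨mem_univ _, Or.inl rfl, hvx⟩⟩
      · push Not at hvx
        obtain ⟨i, hi⟩ := hvx
        apply mem_union_right
        rw [hi]
        exact mem_image_of_mem x (mem_univ i)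
    have hE : (X \ S').card ≤ 2 := by
      rw [card_sdiff_of_subset hsub]
      omega
    obtain ⟨a, b, hab⟩ : ∃ a b, X \ S' ⊆ {a, b} := by
      obtain ⟨y, -⟩ : ∃ y : V, True := ⟨x 0, trivial⟩
      rcases Nat.lt_or_ge (X \ S').card 1 with h | h
      · refine ⟨y, y, ?_⟩
        have : (X \ S').card = 0 := by omega
        rw [card_eq_zero] at this
        rw [this]; exact empty_subset _
      · rcases Nat.lt_or_ge (X \ S').card 2 with h' | h'
        · have : (X \ S').card = 1 := by omega
          obtain ⟨z, hz⟩ := card_eq_one.mp this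
          refine ⟨z, z, ?_⟩
          rw [hz]; simp
        · have : (X \ S').card = 2 := by omega
          obtain ⟨z, w, -, hz⟩ := card_eq_two.mp this
          exact ⟨z, w, by rw [hz]⟩
    apply h3 X (fun i => mem_union_right _ (mem_image_of_mem x (mem_univ i))) a b
    intro v hv hva hvb
    have hvS : v ∈ S' := by
      by_contra hn
      have := hab (mem_sdiff.mpr ⟨hv, hn⟩)
      simp only [mem_insert, mem_singleton] at this
      rcases this with h | h
      · exact hva h
      · exact hvb h
    obtain ⟨u, hu, rfl⟩ := mem_image.mp hvS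
    refine ⟨u.2, ?_⟩
    intro d hd hsd
    by_cases hvx : ∀ i, tgt d ≠ x i
    · apply mem_union_left
      rw [mem_biUnion]
      refine ⟨u, hu, ?_⟩
      simp only [t, mem_filter, mem_univ, true_and]
      exact ⟨Or.inr ⟨d, hd, hsd, rfl⟩, hvx⟩
    · push Not at hvx
      obtain ⟨i, hi⟩ := hvx
      apply mem_union_right
      rw [hi]
      exact mem_image_of_mem x (mem_univ i)
  obtain ⟨m, hminj, hm⟩ := (Finset.all_card_le_biUnion_card_iff_exists_injective t).mp hall
  simp only [t, mem_filter, mem_univ, true_and] at hm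
  -- the successor function
  let nx : V → V := fun v => if h : (∀ i, v ≠ s i) then m ⟨v, h⟩ else v
  have hnx : ∀ v (h : ∀ i, v ≠ s i), nx v = m ⟨v, h⟩ := fun v h => dif_pos h
  have P1 : ∀ v, (∀ i, v ≠ s i) → nx v = v ∨ ∃ d, src d = v ∧ sup d ∧ tgt d = nx v := by
    intro v h
    rw [hnx v h]
    exact (hm ⟨v, h⟩).1
  have P2 : ∀ v, (∀ i, v ≠ s i) → ∀ i, nx v ≠ x i := by
    intro v h
    rw [hnx v h]
    exact (hm ⟨v, h⟩).2
  have P3 : ∀ u v, (∀ i, u ≠ s i) → (∀ i, v ≠ s i) → nx u = nx v → u = v := by
    intro u v hu hv h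
    rw [hnx u hu, hnx v hv] at h
    exact congrArg Subtype.val (hminj h)
  -- paths end at suspensions
  have hex : ∀ i, ∃ n, ∃ j, nx^[n] (x i) = s j := by
    intro i
    by_contra hc
    push Not at hc
    have hninj : ¬ Function.Injective (fun n => nx^[n] (x i)) := not_injective_infinite_finite _
    rw [Function.Injective] at hninj
    push Not at hninj
    obtain ⟨a, b, hab, hne⟩ := hninj
    have key : ∀ a b, a < b → nx^[a] (x i) ≠ nx^[b] (x i) := by
      intro a
      induction a with
      | zero =>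
        intro b hb h
        obtain ⟨c, rfl⟩ : ∃ c, b = c + 1 := ⟨b - 1, by omega⟩
        rw [Function.iterate_succ_apply'] at h
        exact P2 _ (hc c) i h.symm
      | succ a ih =>
        intro b hb h
        obtain ⟨c, rfl⟩ : ∃ c, b = c + 1 := ⟨b - 1, by omega⟩
        rw [Function.iterate_succ_apply', Function.iterate_succ_apply'] at h
        exact ih c (by omega) (P3 _ _ (hc a) (hc c) h)
    rcases lt_or_gt_of_ne hne with h | h
    · exact key a b h hab
    · exact key b a h hab.symm
  let n : Fin 3 → ℕ := fun i => Nat.find (hex i)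
  have hn : ∀ i, ∃ j, nx^[n i] (x i) = s j := fun i => Nat.find_spec (hex i)
  have hfree : ∀ i k, k < n i → ∀ j, nx^[k] (x i) ≠ s j := by
    intro i k hk j h
    exact Nat.find_min (hex i) hk ⟨j, h⟩
  have hdisj : ∀ k l i j, k ≤ n i → l ≤ n j → nx^[k] (x i) = nx^[l] (x j) → i = j ∧ k = l := by
    intro k
    induction k with
    | zero =>
      intro l i j _ hl h
      cases l with
      | zero => exact ⟨hx h, rfl⟩
      | succ l =>
        rw [Function.iterate_succ_apply'] at h
        exact absurd h.symm (P2 _ (hfree j l (by omega)) i)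
    | succ k ih =>
      intro l i j hk hl h
      cases l with
      | zero =>
        rw [Function.iterate_succ_apply'] at h
        exact absurd h (P2 _ (hfree i k (by omega)) j)
      | succ l =>
        rw [Function.iterate_succ_apply', Function.iterate_succ_apply'] at h
        obtain ⟨h4, h5⟩ := ih l i j (by omega) (by omega)
          (P3 _ _ (hfree i k (by omega)) (hfree j l (by omega)) h)
        exact ⟨h4, by rw [h5]⟩
  -- distance to the suspensions
  set L : ℕ → Set V := lay src tgt s sup with hL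
  have hL0 : L 0 = {v | ∃ i, v = s i} := rfl
  have hLs : ∀ k, L (k + 1) = L k ∪ {v | ∃ d, src d = v ∧ sup d ∧ tgt d ∈ L k} := fun _ => rfl
  have hLall : ∀ v, ∃ k, v ∈ L k := by
    intro v0
    by_contra hv
    push Not at hv
    obtain ⟨d, hd1, hd2, hd3⟩ := h1 (univ.filter fun v => ∀ k, v ∉ L k) ⟨v0, by simp [hv]⟩ (by
      intro u hu i hui
      simp only [mem_filter, mem_univ, true_and] at hu
      exact hu 0 (by rw [hL0]; exact ⟨i, hui⟩))
    simp only [mem_filter, mem_univ, true_and, not_forall, not_not] at hd1 hd3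
    obtain ⟨k, hk⟩ := hd3
    exact hd1 (k + 1) (by rw [hLs]; exact Or.inr ⟨d, rfl, hd2, hk⟩)
  let dd : V → ℕ := fun v => Nat.find (hLall v)
  have hdd : ∀ v, v ∈ L (dd v) := fun v => Nat.find_spec (hLall v)
  have hddmin : ∀ v k, v ∈ L k → dd v ≤ k := fun v k h => Nat.find_min' (hLall v) h
  have hdstep : ∀ v, (∀ i, v ≠ s i) → ∃ d, src d = v ∧ sup d ∧ dd (tgt d) < dd v := by
    intro v hv
    have h5 := hdd v
    cases hk : dd v with
    | zero =>
      rw [hk, hL0] at h5
      obtain ⟨i, hi⟩ := h5
      exact absurd hi (hv i)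
    | succ k =>
      rw [hk, hLs] at h5
      rcases h5 with h6 | ⟨d, e1, e2, e3⟩
      · have := hddmin v k h6
        omega
      · exact ⟨d, e1, e2, Nat.lt_succ_of_le (hddmin _ _ e3)⟩
  -- the dart at each vertex
  let onP : V → Prop := fun v => ∃ i k, k ≤ n i ∧ v = nx^[k] (x i)
  have hκ : ∀ v, ∃ d, (∀ i, v ≠ s i) → src d = v ∧ sup d ∧
      ((∃ i k, k < n i ∧ v = nx^[k] (x i) ∧ tgt d = nx^[k + 1] (x i)) ∨
        (¬ onP v ∧ dd (tgt d) < dd v)) := by
    intro v
    by_cases hf : ∀ i, v ≠ s i
    · by_cases hp : onP v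
      · obtain ⟨i, k, hk, rfl⟩ := hp
        have hk' : k < n i := by
          rcases Nat.lt_or_ge k (n i) with h | h
          · exact h
          · have : k = n i := le_antisymm hk h
            obtain ⟨j, hj⟩ := hn i
            rw [this] at hf
            exact absurd hj (hf j)
        rcases P1 _ hf with h | ⟨d, e1, e2, e3⟩
        · exfalso
          rw [← Function.iterate_succ_apply' nx k (x i)] at h
          have := (hdisj (k + 1) k i i (by omega) (by omega) h).2
          omega
        · refine ⟨d, fun _ => ⟨e1, e2, Or.inl ⟨i, k, hk', rfl, ?_⟩⟩⟩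
          rw [e3, ← Function.iterate_succ_apply' nx k (x i)]
      · obtain ⟨d, e1, e2, e3⟩ := hdstep v hf
        exact ⟨d, fun _ => ⟨e1, e2, Or.inr ⟨hp, e3⟩⟩⟩
    · exact ⟨Classical.arbitrary D, fun h => absurd h hf⟩
  choose κ hκ' using hκ
  -- the rank
  let N := n 0 + n 1 + n 2
  have hN : ∀ i, n i ≤ N := by
    intro i
    fin_cases i
    · change n 0 ≤ n 0 + n 1 + n 2; omega
    · change n 1 ≤ n 0 + n 1 + n 2; omega
    · change n 2 ≤ n 0 + n 1 + n 2; omega
  let r : V → ℕ := fun v => if h : onP v then n h.choose - h.choose_spec.choose else N + dd v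
  have hr1 : ∀ i k, k ≤ n i → r (nx^[k] (x i)) = n i - k := by
    intro i k hk
    have h : onP (nx^[k] (x i)) := ⟨i, k, hk, rfl⟩
    have h2 : r (nx^[k] (x i)) = n h.choose - h.choose_spec.choose := dif_pos h
    obtain ⟨h3, h4⟩ := h.choose_spec.choose_spec
    obtain ⟨e1, e2⟩ := hdisj _ _ _ _ hk h3 h4
    have e3 : n h.choose = n i := (congrArg n e1).symm
    rw [h2]
    omega
  have hr2 : ∀ v, ¬ onP v → r v = N + dd v := fun v h => dif_neg h
  obtain ⟨T, hT⟩ := exists_forest hs κ r (src := src) (tgt := tgt) (sup := sup)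
    (fun v hv => (hκ' v hv).1) (fun v hv => (hκ' v hv).2.1) (by
      intro v hv
      rcases (hκ' v hv).2.2 with ⟨i, k, hk, e1, e2⟩ | ⟨e1, e2⟩
      · rw [e2, hr1 i (k + 1) (by omega), e1, hr1 i k (by omega)]
        omega
      · rw [hr2 v e1]
        by_cases hp : onP (tgt (κ v))
        · obtain ⟨i, k, hk, e3⟩ := hp
          rw [e3, hr1 i k hk]
          have := hN i
          omega
        · rw [hr2 _ hp]
          omega)
  refine ⟨T, ?_⟩
  have hρ : ∀ i k, k ≤ n i → T.ρ (nx^[k] (x i)) = T.ρ (x i) := by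
    intro i k
    induction k with
    | zero => intro _; rfl
    | succ k ih =>
      intro hk
      have hf := hfree i k (by omega)
      rw [← ih (by omega), ← T.ρ_κ _ hf, hT]
      rcases (hκ' _ hf).2.2 with ⟨j, l, hl, e1, e2⟩ | ⟨e1, e2⟩
      · obtain ⟨e3, e4⟩ := hdisj _ _ _ _ (by omega) hl.le e1
        rw [e2, ← e3, ← e4]
      · exact absurd ⟨i, k, by omega, rfl⟩ e1
  intro i j hij
  simp only at hij
  obtain ⟨a, ha⟩ := hn i
  obtain ⟨b, hb⟩ := hn j
  have e1 := hρ i (n i) le_rfl
  have e2 := hρ j (n j) le_rfl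
  rw [ha, T.ρ_s] at e1
  rw [hb, T.ρ_s] at e2
  have hab : a = b := by rw [e1, e2, hij]
  rw [hab, ← hb] at ha
  exact (hdisj _ _ _ _ le_rfl le_rfl ha).1

end Pool.Agent.SLTR
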