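import Pool.Agent.SLTR.StLin

set_option autoImplicit false
set_option linter.unusedSectionVars false

/-!
# Flat angle assignments; the sides of the faces
-/

namespace Pool.Agent.SLTR

open Finset

variable {V D F : Type}

/-- A flat angle assignment: `flat d` says that the angle at `src d` in the face of `d` is `π`;
every vertex has at most one flat angle, every face has exactly three angles that are not flat
(at the darts `cor f i`), and the three corners of the outer face have no flat angle at all. -/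
structure FAA (M : PMap V D F) where
  flat : D → Prop
  uniq : ∀ d e, flat d → flat e → M.src d = M.src e → d = e
  cor : F → Fin 3 → D
  cor_inj : ∀ f, Function.Injective (cor f)
  cor_iff : ∀ f d, (M.face d = f ∧ ¬ flat d) ↔ ∃ i, d = cor f i
  susp : ∀ i d, M.src d = M.src (cor M.out i) → ¬ flat d

namespace FAA

variable {M : PMap V D F} (A : FAA M)

/-- the suspensions -/
def s (i : Fin 3) : V := M.src (A.cor M.out i)

/-- support darts -/
def sup (d : D) : Prop :=
  (∀ i, M.src d ≠ A.s i) ∧ ((∀ e, M.src e = M.src d → ¬ A.flat e) ∨ A.flat d ∨ A.flat (M.rot d))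

lemma face_cor (f : F) (i : Fin 3) : M.face (A.cor f i) = f := ((A.cor_iff f _).mpr ⟨i, rfl⟩).1

lemma not_flat_cor (f : F) (i : Fin 3) : ¬ A.flat (A.cor f i) := ((A.cor_iff f _).mpr ⟨i, rfl⟩).2

lemma s_inj : Function.Injective A.s := by
  intro i j h
  apply A.cor_inj M.out
  apply M.simple
  · rw [A.face_cor, A.face_cor]
  · exact h

lemma exists_ne (f : F) (d e : D) : ∃ i, A.cor f i ≠ d ∧ A.cor f i ≠ e := by
  by_contra h
  push Not at h
  have h0 := h 0
  have h1 := h 1
  have h2 := h 2
  have h01 : A.cor f 0 ≠ A.cor f 1 := fun h => absurd (A.cor_inj f h) (by decide)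
  have h02 : A.cor f 0 ≠ A.cor f 2 := fun h => absurd (A.cor_inj f h) (by decide)
  have h12 : A.cor f 1 ≠ A.cor f 2 := fun h => absurd (A.cor_inj f h) (by decide)
  by_cases a : A.cor f 0 = d
  · have b : A.cor f 1 = e := h1 (by rw [← a]; exact h01.symm)
    have c : A.cor f 2 = e := h2 (by rw [← a]; exact h02.symm)
    exact h12 (b.trans c.symm)
  · have b : A.cor f 0 = e := h0 a
    by_cases a' : A.cor f 1 = d
    · have c : A.cor f 2 = e := h2 (by rw [← a']; exact h12.symm)
      exact h02 (b.trans c.symm)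
    · exact h01 (b.trans (h1 a').symm)

section fin
variable [Fintype D]

lemma exists_next (c : D) : ∃ k, ¬ A.flat ((M.nxt ^ (k + 1)) c) := by
  obtain ⟨i, -, -⟩ := A.exists_ne (M.face c) c c
  have := M.face_one (M.face c) (fun x => ∃ k, x = (M.nxt ^ (k + 1)) c) (M.nxt c)
    (A.cor (M.face c) i) (M.face_nxt c) (A.face_cor _ _) ⟨0, by simp⟩ (by
      rintro x _ ⟨k, rfl⟩
      exact ⟨k + 1, by rw [pow_succ' M.nxt (k + 1)]; rfl⟩)
  obtain ⟨k, hk⟩ := this
  exact ⟨k, by rw [← hk]; exact A.not_flat_cor _ _⟩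

open Classical in
/-- length of the side starting at `c` -/
noncomputable def len (c : D) : ℕ := Nat.find (A.exists_next c) + 1

/-- the next corner -/
noncomputable def nc (c : D) : D := (M.nxt ^ (A.len c)) c

lemma len_pos (c : D) : 0 < A.len c := Nat.succ_pos _

lemma nc_not_flat (c : D) : ¬ A.flat (A.nc c) := by
  classical
  have := Nat.find_spec (A.exists_next c)
  unfold nc len
  convert this

lemma flat_of_lt (c : D) (j : ℕ) (h0 : 0 < j) (h : j < A.len c) : A.flat ((M.nxt ^ j) c) := by
  classical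
  obtain ⟨i, rfl⟩ : ∃ i, j = i + 1 := ⟨j - 1, by omega⟩
  have h2 : i < Nat.find (A.exists_next c) := by
    unfold len at h
    have : i + 1 < Nat.find (A.exists_next c) + 1 := by
      convert h
    omega
  have := Nat.find_min (A.exists_next c) h2
  simpa using this

lemma face_pow (c : D) (j : ℕ) : M.face ((M.nxt ^ j) c) = M.face c := by
  induction j with
  | zero => simp
  | succ j ih => rw [pow_succ']; exact (M.face_nxt _).trans ih

lemma face_nc (c : D) : M.face (A.nc c) = M.face c := face_pow c _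

/-- `x` is on the side starting at `c` -/
def Side (c x : D) : Prop := ∃ j < A.len c, x = (M.nxt ^ j) c

lemma side_self (c : D) : A.Side c c := ⟨0, A.len_pos c, by simp⟩

lemma side_nxt (c x : D) (h : A.Side c x) : A.Side c (M.nxt x) ∨ M.nxt x = A.nc c := by
  obtain ⟨j, hj, rfl⟩ := h
  have h2 : M.nxt ((M.nxt ^ j) c) = (M.nxt ^ (j + 1)) c := by rw [pow_succ']; rfl
  by_cases h1 : j + 1 < A.len c
  · left
    exact ⟨j + 1, h1, h2⟩
  · right
    have : A.len c = j + 1 := by omega
    rw [h2, nc, this]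

lemma side_corner (c x : D) (h : A.Side c x) (hx : ¬ A.flat x) : x = c := by
  obtain ⟨j, hj, rfl⟩ := h
  by_cases h0 : j = 0
  · rw [h0]; simp
  · exact absurd (A.flat_of_lt c j (Nat.pos_of_ne_zero h0) hj) hx

lemma nc_ne (c : D) : A.nc c ≠ c := by
  intro h
  obtain ⟨i, hi, -⟩ := A.exists_ne (M.face c) c c
  have := M.face_one (M.face c) (fun x => A.Side c x) c (A.cor (M.face c) i) rfl (A.face_cor _ _)
    (A.side_self c) (by
      intro x _ hx
      rcases A.side_nxt c x hx with h1 | h1
      · exact h1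
      · rw [h1, h]; exact A.side_self c)
  exact hi (A.side_corner c _ this (A.not_flat_cor _ _))

lemma nc_nc_ne (c : D) : A.nc (A.nc c) ≠ c := by
  intro h
  obtain ⟨i, hi, hi'⟩ := A.exists_ne (M.face c) c (A.nc c)
  have := M.face_one (M.face c) (fun x => A.Side c x ∨ A.Side (A.nc c) x) c
    (A.cor (M.face c) i) rfl (A.face_cor _ _) (Or.inl (A.side_self c)) (by
      intro x _ hx
      rcases hx with hx | hx
      · rcases A.side_nxt c x hx with h1 | h1
        · exact Or.inl h1
        · rw [h1]; exact Or.inr (A.side_self _)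
      · rcases A.side_nxt _ x hx with h1 | h1
        · exact Or.inr h1
        · rw [h1, h]; exact Or.inl (A.side_self c))
  rcases this with h1 | h1
  · exact hi (A.side_corner c _ h1 (A.not_flat_cor _ _))
  · exact hi' (A.side_corner _ _ h1 (A.not_flat_cor _ _))

/-- three pairwise different non-flat darts are all non-flat darts of their face -/
lemma three (f : F) (a b c d : D) (ha : M.face a = f ∧ ¬ A.flat a) (hb : M.face b = f ∧ ¬ A.flat b)
    (hc : M.face c = f ∧ ¬ A.flat c) (hd : M.face d = f ∧ ¬ A.flat d) (hab : a ≠ b) (hac : a ≠ c)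
    (hbc : b ≠ c) : d = a ∨ d = b ∨ d = c := by
  obtain ⟨i, rfl⟩ := (A.cor_iff f a).mp ha
  obtain ⟨j, rfl⟩ := (A.cor_iff f b).mp hb
  obtain ⟨k, rfl⟩ := (A.cor_iff f c).mp hc
  obtain ⟨l, rfl⟩ := (A.cor_iff f d).mp hd
  have hij : i ≠ j := fun h => hab (by rw [h])
  have hik : i ≠ k := fun h => hac (by rw [h])
  have hjk : j ≠ k := fun h => hbc (by rw [h])
  have : l = i ∨ l = j ∨ l = k := by
    revert i j k l
    intro i j k l _ _ _ _ _ _ _ h1 h2 h3
    omega
  rcases this with h | h | h
  · left; rw [h]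
  · right; left; rw [h]
  · right; right; rw [h]

lemma corner_cases (c d : D) (hc : ¬ A.flat c) (hd : ¬ A.flat d) (hf : M.face d = M.face c) :
    d = c ∨ d = A.nc c ∨ d = A.nc (A.nc c) := by
  apply A.three (M.face c) c (A.nc c) (A.nc (A.nc c)) d ⟨rfl, hc⟩ ⟨A.face_nc c, A.nc_not_flat c⟩
    ⟨(A.face_nc _).trans (A.face_nc c), A.nc_not_flat _⟩ ⟨hf, hd⟩ (A.nc_ne c).symm
    (A.nc_nc_ne c).symm (A.nc_ne _).symm

/-- every dart lies on a side -/
lemma exists_side (x : D) : ∃ c, ¬ A.flat c ∧ M.face c = M.face x ∧ A.Side c x := by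
  obtain ⟨i, -, -⟩ := A.exists_ne (M.face x) x x
  exact M.face_one (M.face x) (fun x => ∃ c, ¬ A.flat c ∧ M.face c = M.face x ∧ A.Side c x)
    (A.cor (M.face x) i) x (A.face_cor _ _) rfl
    ⟨_, A.not_flat_cor _ _, rfl, A.side_self _⟩ (by
      rintro y hy ⟨c, h1, h2, h3⟩
      rcases A.side_nxt c y h3 with h4 | h4
      · exact ⟨c, h1, h2.trans (M.face_nxt y).symm, h4⟩
      · exact ⟨A.nc c, A.nc_not_flat c, by rw [h4], by rw [h4]; exact A.side_self _⟩)

/-- the dart before a corner is on the side of the previous corner -/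
lemma exists_prev (c : D) (hc : ¬ A.flat c) : ∃ b, ¬ A.flat b ∧ M.face b = M.face c ∧
    A.nc b = c ∧ A.Side b (M.nxt.symm c) := by
  obtain ⟨b, h1, h2, h3⟩ := A.exists_side (M.nxt.symm c)
  rw [M.face_symm] at h2
  refine ⟨b, h1, h2, ?_, h3⟩
  rcases A.side_nxt b _ h3 with h4 | h4
  · rw [Equiv.apply_symm_apply] at h4
    have h5 := A.side_corner b c h4 hc
    -- then the whole face is the side of b
    exfalso
    subst h5
    obtain ⟨j, hj, hj'⟩ := h3
    -- `nxt^j b = nxt⁻¹ b`, so nxt^(j+1) b = b is not flat with j + 1 ≤ len b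
    have h6 : (M.nxt ^ (j + 1)) c = c := by
      rw [pow_succ']
      change M.nxt ((M.nxt ^ j) c) = c
      rw [← hj', Equiv.apply_symm_apply]
    by_cases h7 : j + 1 < A.len c
    · have := A.flat_of_lt c (j + 1) (Nat.succ_pos _) h7
      rw [h6] at this
      exact hc this
    · have h8 : A.len c = j + 1 := by omega
      apply A.nc_ne c
      rw [nc, h8, h6]
  · rw [Equiv.apply_symm_apply] at h4
    exact h4.symm

lemma nc_inj (a b : D) (ha : ¬ A.flat a) (hb : ¬ A.flat b) (h : A.nc a = A.nc b) : a = b := by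
  have hf : M.face b = M.face a := by rw [← A.face_nc a, ← A.face_nc b, h]
  rcases A.corner_cases a b ha hb hf with h1 | h1 | h1
  · exact h1.symm
  · rw [h1] at h
    exact absurd h.symm (A.nc_ne _)
  · rw [h1] at h
    exact absurd h.symm (A.nc_nc_ne _)

lemma nc_three (c : D) (hc : ¬ A.flat c) : A.nc (A.nc (A.nc c)) = c := by
  rcases A.corner_cases c (A.nc (A.nc (A.nc c))) hc (A.nc_not_flat _)
    (by rw [A.face_nc, A.face_nc, A.face_nc]) with h | h | h
  · exact h
  · exact absurd (A.nc_inj _ _ (A.nc_not_flat _) hc h) (A.nc_nc_ne c)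
  · exact absurd (A.nc_inj _ _ (A.nc_not_flat _) (A.nc_not_flat _) h) (A.nc_ne _)

include A in
/-- the reverse of an outer dart is not outer -/
lemma rev_out (d : D) (hd : M.face d = M.out) : M.face (M.rev d) ≠ M.out := by
  intro h
  have h1 : M.nxt d = M.rev d := M.simple _ _ (by rw [M.face_nxt, hd, h]) (M.src_nxt d)
  have h2 : M.nxt (M.rev d) = d := M.simple _ _ (by rw [M.face_nxt, hd, h])
    (by rw [M.src_nxt, M.rev_rev])
  obtain ⟨i, hi, hi'⟩ := A.exists_ne M.out d (M.rev d)
  have := M.face_one M.out (fun x => x = d ∨ x = M.rev d) d (A.cor M.out i) hd (A.face_cor _ _)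
    (Or.inl rfl) (by
      rintro x _ (rfl | rfl)
      · exact Or.inr h1
      · exact Or.inl h2)
  rcases this with h | h
  · exact hi h
  · exact hi' h

end fin

end FAA

end Pool.Agent.SLTR
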