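import Pool.Agent.SLTR.StGeom

set_option autoImplicit false
set_option linter.unusedSectionVars false

/-!
# The solution: nondegenerate faces, orientation, no folds
-/

namespace Pool.Agent.SLTR

open Finset

variable {V D F : Type} [Fintype V] [Fintype D] [Fintype F] [DecidableEq V] [DecidableEq D]
  [DecidableEq F]

/-- a generic solution of the linear system -/
structure Sol {M : PMap V D F} (A : FAA M) where
  w : D → ℝ
  x : V → ℝ
  y : V → ℝ
  T0 : Forest M.src M.tgt A.s A.sup
  adm : Adm M.src A.s A.sup w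
  hx : A.H w x
  hy : A.H w y
  det_ne : ∀ f, (Bmat M.src M.tgt A.s w (fun i => M.src (A.cor f i))).det ≠ 0
  c : D
  face_c : M.face c = M.out
  flat_c : ¬ A.flat c
  x0 : x (M.src c) = 0
  y0 : y (M.src c) = 0
  x1 : x (M.src (A.nc c)) = 0
  y1 : y (M.src (A.nc c)) = 1
  x2 : x (M.src (A.nc (A.nc c))) = 1
  y2 : y (M.src (A.nc (A.nc c))) = 0

/-- certificates: for each bounded face, a forest separating its corners -/
def Cert {M : PMap V D F} (A : FAA M) : Prop :=
  ∀ f, f ≠ M.out → ∃ T : Forest M.src M.tgt A.s A.sup,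
    Function.Injective fun i => T.ρ (M.src (A.cor f i))

theorem exists_sol {M : PMap V D F} (A : FAA M) (hc : Cert A) : Nonempty (Sol A) := by
  classical
  have hb : M.face (M.rev (A.cor M.out 0)) ≠ M.out := A.rev_out _ (A.face_cor _ _)
  obtain ⟨T0, -⟩ := hc _ hb
  have hT : ∀ f, ∃ T : Forest M.src M.tgt A.s A.sup,
      Function.Injective fun i => T.ρ (M.src (A.cor f i)) := by
    intro f
    by_cases hf : f = M.out
    · subst hf
      refine ⟨T0, ?_⟩
      intro i j hij
      have h1 : T0.ρ (A.s i) = i := T0.ρ_s i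
      have h2 : T0.ρ (A.s j) = j := T0.ρ_s j
      have h3 : T0.ρ (A.s i) = T0.ρ (A.s j) := hij
      rw [h1, h2] at h3
      exact h3
    · exact hc f hf
  choose T hTi using hT
  obtain ⟨w, hw, hdet⟩ := exists_generic A.s_inj (fun f i => M.src (A.cor f i)) T T0 hTi
  have hdet0 : (Bmat M.src M.tgt A.s w A.s).det ≠ 0 := hdet M.out
  -- coordinates
  let c := A.cor M.out 0
  have hcf : M.face c = M.out := A.face_cor _ _
  have hcn : ¬ A.flat c := A.not_flat_cor _ _
  have hsrc : ∀ d e : D, M.face d = M.out → M.face e = M.out → M.src d = M.src e → d = e :=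
    fun d e h1 h2 h3 => M.simple d e (h1.trans h2.symm) h3
  have hf1 : M.face (A.nc c) = M.out := (A.face_nc c).trans hcf
  have hf2 : M.face (A.nc (A.nc c)) = M.out := (A.face_nc _).trans hf1
  have hs : ∀ i, ∃ d, d = A.cor M.out i := fun i => ⟨_, rfl⟩
  obtain ⟨x, hx, hxs⟩ := exists_harm A.s_inj w hdet0
    (fun i => if A.cor M.out i = A.nc (A.nc c) then 1 else 0)
  obtain ⟨y, hy, hys⟩ := exists_harm A.s_inj w hdet0
    (fun i => if A.cor M.out i = A.nc c then 1 else 0)
  have hcor : ∀ d, M.face d = M.out → ¬ A.flat d → ∃ i, d = A.cor M.out i ∧ M.src d = A.s i := by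
    intro d h1 h2
    obtain ⟨i, hi⟩ := (A.cor_iff M.out d).mp ⟨h1, h2⟩
    exact ⟨i, hi, by rw [hi]; rfl⟩
  obtain ⟨i0, hi0, hi0'⟩ := hcor c hcf hcn
  obtain ⟨i1, hi1, hi1'⟩ := hcor _ hf1 (A.nc_not_flat c)
  obtain ⟨i2, hi2, hi2'⟩ := hcor _ hf2 (A.nc_not_flat _)
  refine ⟨⟨w, x, y, T0, hw, hx, hy, hdet, c, hcf, hcn, ?_, ?_, ?_, ?_, ?_, ?_⟩⟩
  · rw [hi0', hxs, ← hi0, if_neg (A.nc_nc_ne c).symm]
  · rw [hi0', hys, ← hi0, if_neg (A.nc_ne c).symm]
  · rw [hi1', hxs, ← hi1, if_neg (A.nc_ne _).symm]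
  · rw [hi1', hys, ← hi1, if_pos rfl]
  · rw [hi2', hxs, ← hi2, if_pos rfl]
  · rw [hi2', hys, ← hi2, if_neg (A.nc_ne _)]

lemma eps_exists {ι : Type} [Finite ι] (a b : ι → ℝ) : ∃ ε : ℝ, 0 < ε ∧
    ∀ k, (0 < a k → 0 < a k - ε * b k) ∧ (a k < 0 → a k - ε * b k < 0) := by
  have h : ∀ k, ∀ᶠ ε in nhdsWithin (0 : ℝ) (Set.Ioi 0),
      (0 < a k → 0 < a k - ε * b k) ∧ (a k < 0 → a k - ε * b k < 0) := by
    intro k
    have hc : Continuous fun ε : ℝ => a k - ε * b k := by fun_prop
    have ht : Filter.Tendsto (fun ε : ℝ => a k - ε * b k) (nhdsWithin (0 : ℝ) (Set.Ioi 0))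
        (nhds (a k)) := by
      have h1 := hc.tendsto 0
      simp only [zero_mul, sub_zero] at h1
      exact h1.mono_left nhdsWithin_le_nhds
    rcases lt_trichotomy (a k) 0 with h0 | h0 | h0
    · filter_upwards [ht.eventually (gt_mem_nhds h0)] with ε hε
      exact ⟨fun h => absurd h (by linarith), fun _ => hε⟩
    · filter_upwards with ε
      exact ⟨fun h => absurd h (by rw [h0]; exact lt_irrefl 0),
        fun h => absurd h (by rw [h0]; exact lt_irrefl 0)⟩
    · filter_upwards [ht.eventually (lt_mem_nhds h0)] with ε hε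
      exact ⟨fun _ => hε, fun h => absurd h (by linarith)⟩
  have h2 := Filter.eventually_all.mpr h
  obtain ⟨ε, h3, h4⟩ := (h2.and self_mem_nhdsWithin).exists
  exact ⟨ε, h4, h3⟩

namespace Sol

variable {M : PMap V D F} {A : FAA M} (S : Sol A)

open FAA

/-- signed double area of three vertices -/
def area (a b c : V) : ℝ :=
  (S.x b - S.x a) * (S.y c - S.y a) - (S.y b - S.y a) * (S.x c - S.x a)

lemma area_cyc (a b c : V) : S.area b c a = S.area a b c := by unfold area; ring

/-- linear combinations of the coordinates are harmonic -/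
lemma harm (a b c : ℝ) : A.H S.w (fun v => a * S.x v + b * S.y v + c) :=
  S.hx.lin S.adm S.hy a b c

lemma area_ne (c : D) (hc : ¬ A.flat c) :
    S.area (M.src c) (M.src (A.nc c)) (M.src (A.nc (A.nc c))) ≠ 0 := by
  intro h0
  obtain ⟨a, b, γ, h1, h2, h3, hne⟩ : ∃ a b γ : ℝ,
      a * S.x (M.src c) + b * S.y (M.src c) + γ = 0 ∧
      a * S.x (M.src (A.nc c)) + b * S.y (M.src (A.nc c)) + γ = 0 ∧
      a * S.x (M.src (A.nc (A.nc c))) + b * S.y (M.src (A.nc (A.nc c))) + γ = 0 ∧
      ¬ (a = 0 ∧ b = 0 ∧ γ = 0) := by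
    unfold area at h0
    set X0 := S.x (M.src c)
    set Y0 := S.y (M.src c)
    set X1 := S.x (M.src (A.nc c))
    set Y1 := S.y (M.src (A.nc c))
    set X2 := S.x (M.src (A.nc (A.nc c)))
    set Y2 := S.y (M.src (A.nc (A.nc c)))
    by_cases h01 : X1 = X0 ∧ Y1 = Y0
    · obtain ⟨e1, e2⟩ := h01
      by_cases h02 : X2 = X0 ∧ Y2 = Y0
      · obtain ⟨e3, e4⟩ := h02
        exact ⟨1, 0, -X0, by ring, by rw [e1]; ring, by rw [e3]; ring, by simp⟩
      · refine ⟨-(Y2 - Y0), X2 - X0, (Y2 - Y0) * X0 - (X2 - X0) * Y0, by ring, by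
          rw [e1, e2]; ring, by ring, ?_⟩
        rintro ⟨e3, e4, -⟩
        exact h02 ⟨by linarith, by linarith⟩
    · refine ⟨-(Y1 - Y0), X1 - X0, (Y1 - Y0) * X0 - (X1 - X0) * Y0, by ring, by ring, by
          linarith, ?_⟩
      rintro ⟨e3, e4, -⟩
      exact h01 ⟨by linarith, by linarith⟩
  have hz := harm_eq_zero A.s_inj S.w _ (S.det_ne (M.face c)) _ (S.harm a b γ) (by
    intro i
    rcases A.corner_cases c (A.cor (M.face c) i) hc (A.not_flat_cor _ _) (A.face_cor _ _)
      with h | h | h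
    · simp only [h]; exact h1
    · simp only [h]; exact h2
    · simp only [h]; exact h3)
  have e0 := congrFun hz (M.src S.c)
  have e1 := congrFun hz (M.src (A.nc S.c))
  have e2 := congrFun hz (M.src (A.nc (A.nc S.c)))
  simp only [S.x0, S.y0, S.x1, S.y1, S.x2, S.y2, Pi.zero_apply] at e0 e1 e2
  exact hne ⟨by linarith, by linarith, by linarith⟩

/-- orientation of a face -/
noncomputable def ori (f : F) : ℝ :=
  S.area (M.src (A.cor f 0)) (M.src (A.nc (A.cor f 0))) (M.src (A.nc (A.nc (A.cor f 0))))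

lemma area_eq_ori (c : D) (hc : ¬ A.flat c) :
    S.area (M.src c) (M.src (A.nc c)) (M.src (A.nc (A.nc c))) = S.ori (M.face c) := by
  have hn := A.not_flat_cor (M.face c) 0
  rcases A.corner_cases _ c hn hc (A.face_cor _ _).symm with h | h | h
  · unfold ori; rw [← h]
  · unfold ori
    have : A.nc (A.nc (A.nc (A.cor (M.face c) 0))) = A.cor (M.face c) 0 := A.nc_three _ hn
    conv_lhs => rw [h]
    rw [this, area_cyc]
  · unfold ori
    have : A.nc (A.nc (A.nc (A.cor (M.face c) 0))) = A.cor (M.face c) 0 := A.nc_three _ hn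
    conv_lhs => rw [h]
    rw [this, ← area_cyc]

lemma ori_ne (f : F) : S.ori f ≠ 0 := by
  have := S.area_ne (A.cor f 0) (A.not_flat_cor _ _)
  exact this

lemma ori_out : S.ori M.out = -1 := by
  rw [← S.face_c, ← S.area_eq_ori S.c S.flat_c]
  unfold area
  rw [S.x0, S.y0, S.x1, S.y1, S.x2, S.y2]
  norm_num

/-- turn at the start of a dart, in its face -/
def turn (d : D) : ℝ :=
  dl M S.x (M.nxt.symm d) * dl M S.y d - dl M S.y (M.nxt.symm d) * dl M S.x d

lemma turn_corner (c : D) (hc : ¬ A.flat c) : ∃ κ : ℝ, 0 < κ ∧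
    S.turn c = κ * S.ori (M.face c) := by
  obtain ⟨b, hb, hbf, hbn, hbs⟩ := A.exists_prev c hc
  obtain ⟨m, a, hm, -, -, h1⟩ := A.side_frac S.w S.adm b _ hbs
  obtain ⟨m', a', hm', -, -, h2⟩ := A.side_frac S.w S.adm c c (A.side_self c)
  have hbe : b = A.nc (A.nc c) := by
    apply A.nc_inj _ _ hb (A.nc_not_flat _)
    rw [A.nc_three c hc, hbn]
  refine ⟨m * m', mul_pos hm hm', ?_⟩
  rw [← S.area_eq_ori c hc]
  unfold turn area
  rw [(h1 _ S.hx).1, (h1 _ S.hy).1, (h2 _ S.hx).1, (h2 _ S.hy).1, hbn, hbe]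
  ring

lemma dl_ne (d : D) : ¬ (dl M S.x d = 0 ∧ dl M S.y d = 0) := by
  rintro ⟨h1, h2⟩
  obtain ⟨c, hc, hcf, hcs⟩ := A.exists_side d
  obtain ⟨m, a, hm, -, -, h3⟩ := A.side_frac S.w S.adm c _ hcs
  have h4 := (h3 _ S.hx).1
  have h5 := (h3 _ S.hy).1
  rw [h1] at h4
  rw [h2] at h5
  have h6 : S.x (M.src (A.nc c)) - S.x (M.src c) = 0 := by
    rcases mul_eq_zero.mp h4.symm with h | h
    · linarith
    · exact h
  have h7 : S.y (M.src (A.nc c)) - S.y (M.src c) = 0 := by
    rcases mul_eq_zero.mp h5.symm with h | h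
    · linarith
    · exact h
  apply S.area_ne c hc
  unfold area
  rw [h6, h7]; ring

/-- upward darts -/
noncomputable def up (M : PMap V D F) (h : V → ℝ) (d : D) : Bool := decide (0 < dl M h d)

/-- generic height functions -/
structure Gen (A : FAA M) (w : D → ℝ) (h : V → ℝ) : Prop where
  harm : A.H w h
  ne : ∀ d, dl M h d ≠ 0
  susp : ∀ i j, i ≠ j → h (A.s i) ≠ h (A.s j)

lemma up_true {h : V → ℝ} {d : D} (hd : 0 < dl M h d) : up M h d = true := by
  unfold up; simpa using hd

lemma up_false {h : V → ℝ} {d : D} (hd : dl M h d < 0) : up M h d = false := by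
  unfold up; simpa using hd.le

lemma up_iff {h : V → ℝ} {d : D} : up M h d = true ↔ 0 < dl M h d := by
  unfold up; simp

include S in
/-- a suspension has an outer dart to the next suspension and one to the previous one -/
lemma susp_darts (i : Fin 3) : ∃ c c' : D, M.src c = A.s i ∧ M.src c' = A.s i ∧
    M.face c = M.out ∧ M.face (M.rev c') = M.out ∧
    ∃ j k, j ≠ i ∧ k ≠ i ∧ j ≠ k ∧ ∃ m m' : ℝ, 0 < m ∧ 0 < m' ∧ ∀ h, A.H S.w h →
      dl M h c = m * (h (A.s j) - h (A.s i)) ∧ dl M h c' = m' * (h (A.s k) - h (A.s i)) := by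
  set c := A.cor M.out i with hcdef
  have hc := A.not_flat_cor M.out i
  obtain ⟨b, hb, hbf, hbn, hbs⟩ := A.exists_prev c hc
  obtain ⟨m, a, hm, -, -, h1⟩ := A.side_frac S.w S.adm b _ hbs
  obtain ⟨m', a', hm', -, -, h2⟩ := A.side_frac S.w S.adm c c (A.side_self c)
  have hcf : M.face c = M.out := A.face_cor _ _
  have hbe : b = A.nc (A.nc c) := by
    apply A.nc_inj _ _ hb (A.nc_not_flat _)
    rw [A.nc_three c hc, hbn]
  obtain ⟨j, hj⟩ := (A.cor_iff M.out (A.nc c)).mp ⟨(A.face_nc c).trans hcf, A.nc_not_flat c⟩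
  obtain ⟨k, hk⟩ := (A.cor_iff M.out b).mp ⟨hbf.trans hcf, hb⟩
  refine ⟨c, M.rev (M.nxt.symm c), rfl, M.src_symm c, hcf, ?_, j, k, ?_, ?_, ?_, m', m, hm', hm,
    ?_⟩
  · rw [M.rev_rev, M.face_symm, hcf]
  · rintro rfl
    exact A.nc_ne c hj
  · rintro rfl
    rw [← hcdef, hbe] at hk
    exact A.nc_nc_ne c hk
  · rintro rfl
    rw [← hk, hbe] at hj
    exact A.nc_ne _ hj.symm
  · intro h hh
    have e1 : h (M.src (A.nc c)) = h (A.s j) := by rw [hj]; rfl
    have e2 : h (M.src b) = h (A.s k) := by rw [hk]; rfl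
    have e3 : h (M.src c) = h (A.s i) := rfl
    refine ⟨?_, ?_⟩
    · rw [(h2 h hh).1, e1, e3]
    · rw [dl_rev, (h1 h hh).1, hbn, e2, e3]; ring

lemma fin3_cases (i j k l : Fin 3) (h1 : j ≠ i) (h2 : k ≠ i) (h3 : j ≠ k) : l = i ∨ l = j ∨ l = k := by
  omega

include S in
/-- exactly two changes at each vertex that is not the highest or lowest suspension -/
theorem two_changes (heu : M.Euler) (h : V → ℝ) (hg : Gen A S.w h) (v : V)
    (hv : ∀ i, v = A.s i → (∃ j, h (A.s i) < h (A.s j)) ∧ ∃ j, h (A.s j) < h (A.s i)) :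
    (chg M.rot M.src (up M h) v).card = 2 := by
  obtain ⟨it, hit⟩ := Finite.exists_max (fun i => h (A.s i))
  obtain ⟨ib, hib⟩ := Finite.exists_min (fun i => h (A.s i))
  have htb : A.s it ≠ A.s ib := by
    intro he
    have h1 := hit 0
    have h2 := hit 1
    have h3 := hib 0
    have h4 := hib 1
    rw [he] at h1 h2
    exact hg.susp 0 1 (by decide) (by linarith)
  apply M.index heu (up M h) _ _ (A.s it) (A.s ib) htb _ v
  · intro he
    obtain ⟨⟨j, hj⟩, -⟩ := hv it he
    have := hit j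
    linarith
  · intro he
    obtain ⟨-, ⟨j, hj⟩⟩ := hv ib he
    have := hib j
    linarith
  · intro d
    rcases lt_or_gt_of_ne (hg.ne d) with h1 | h1
    · rw [up_false h1, up_true (by rw [dl_rev]; linarith)]; rfl
    · rw [up_true h1, up_false (by rw [dl_rev]; linarith)]; rfl
  · intro f
    obtain ⟨d0, hd0⟩ := M.face_surj f
    obtain ⟨m, hm, hmax⟩ := exists_max_image (univ.filter fun d => M.face d = f)
      (fun d => h (M.src d)) ⟨d0, by simp [hd0]⟩
    simp only [mem_filter, mem_univ, true_and] at hm hmax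
    refine ⟨M.nxt.symm m, m, (M.face_symm m).trans hm, hm, ?_, ?_⟩
    · apply up_true
      have h1 := hmax (M.nxt.symm m) ((M.face_symm m).trans hm)
      have h2 : dl M h (M.nxt.symm m) = h (M.src m) - h (M.src (M.nxt.symm m)) := by
        unfold dl
        congr 2
        rw [PMap.tgt, M.src_symm]
      have h3 := hg.ne (M.nxt.symm m)
      rw [h2] at h3 ⊢
      rcases lt_or_eq_of_le h1 with h4 | h4
      · linarith
      · exact absurd (by linarith) h3
    · apply up_false
      have h1 := hmax (M.nxt m) ((M.face_nxt m).trans hm)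
      rw [M.src_nxt] at h1
      have h3 := hg.ne m
      have h2 : dl M h m = h (M.src (M.rev m)) - h (M.src m) := rfl
      rw [h2] at h3 ⊢
      rcases lt_or_eq_of_le h1 with h4 | h4
      · linarith
      · exact absurd (by linarith) h3
  · intro u hu1 hu2
    by_cases hf : ∀ i, u ≠ A.s i
    · have hk1 := S.T0.src_κ u hf
      have hk2 := S.T0.sup_κ u hf
      have hk3 := hg.ne (S.T0.κ u)
      have hA : ∃ a, M.src a = u ∧ 0 < dl M h a := by
        by_contra hc
        push Not at hc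
        apply hk3
        have := hg.harm.eq_of_le S.adm u hf (by
          intro d hd _
          have := hc d hd
          unfold dl at this
          rw [hd] at this
          linarith) _ hk1 hk2
        unfold dl
        rw [this, hk1]; ring
      have hB : ∃ a, M.src a = u ∧ dl M h a < 0 := by
        by_contra hc
        push Not at hc
        apply hk3
        have := hg.harm.eq_of_ge S.adm u hf (by
          intro d hd _
          have := hc d hd
          unfold dl at this
          rw [hd] at this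
          linarith) _ hk1 hk2
        unfold dl
        rw [this, hk1]; ring
      obtain ⟨a, ha, ha'⟩ := hA
      obtain ⟨b, hb, hb'⟩ := hB
      exact ⟨a, b, ha, hb, up_true ha', up_false hb'⟩
    · push Not at hf
      obtain ⟨i, rfl⟩ := hf
      obtain ⟨c, c', hcs, hcs', -, -, j, k, hji, hki, hjk, m, m', hm, hm', hmm⟩ := S.susp_darts i
      obtain ⟨h1, h2⟩ := hmm h hg.harm
      have hti : it ≠ i := fun he => hu1 (by rw [he])
      have hbi : ib ≠ i := fun he => hu2 (by rw [he])
      have hne : it ≠ ib := fun he => htb (by rw [he])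
      have hlt : h (A.s ib) < h (A.s i) := lt_of_le_of_ne (hib i) (hg.susp ib i hbi)
      have hgt : h (A.s i) < h (A.s it) := lt_of_le_of_ne (hit i) (hg.susp i it hti.symm)
      have htj := fin3_cases i j k it hji hki hjk
      have hbj := fin3_cases i j k ib hji hki hjk
      have hcase : (it = j ∧ ib = k) ∨ (it = k ∧ ib = j) := by
        rcases htj with h3 | h3 | h3
        · exact absurd h3 hti
        · rcases hbj with h4 | h4 | h4
          · exact absurd h4 hbi
          · exact absurd (h3.trans h4.symm) hne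
          · exact Or.inl ⟨h3, h4⟩
        · rcases hbj with h4 | h4 | h4
          · exact absurd h4 hbi
          · exact Or.inr ⟨h3, h4⟩
          · exact absurd (h3.trans h4.symm) hne
      rcases hcase with ⟨rfl, rfl⟩ | ⟨rfl, rfl⟩
      · refine ⟨c, c', hcs, hcs', up_true ?_, up_false ?_⟩
        · rw [h1]; exact mul_pos hm (by linarith)
        · rw [h2]; exact mul_neg_of_pos_of_neg hm' (by linarith)
      · refine ⟨c', c, hcs', hcs, up_true ?_, up_false ?_⟩
        · rw [h2]; exact mul_pos hm' (by linarith)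
        · rw [h1]; exact mul_neg_of_pos_of_neg hm (by linarith)

end Sol

end Pool.Agent.SLTR
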